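import Pool.Agent.TH665.GP.T1

set_option autoImplicit false

open Finset Filter Topology

namespace Pool.Agent.TH665.GP

open Pool.Agent.H197R2.PG (PI pi_le_self QQ QQ_card gg one_le_gg moment_le euler_le PY wt)

/-- iterated primes have the expected order of magnitude from below -/
lemma density (k : ℕ) : ∃ c : ℝ, 0 < c ∧ ∃ y0 : ℕ, ∀ y : ℕ, y0 ≤ y → ∃ S : Finset ℕ,
    S ⊆ Icc 1 y ∧ (∀ a ∈ S, PI k a) ∧ c * y ≤ S.card * Real.log y ^ (k + 1) := by
  classical
  have hQ : ∀ᶠ y : ℕ in atTop, (y : ℝ) / (2 * Real.log y) ≤ Nat.primeCounting y := by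
    filter_upwards [QQ_card] with y h2
    refine h2.trans ?_
    have h4 : (QQ y).card ≤ Nat.primeCounting y := by
      rw [Nat.primeCounting, Nat.primeCounting', Nat.count_eq_card_filter_range]
      apply Finset.card_le_card
      intro p hp
      unfold QQ at hp
      rw [mem_filter, mem_Ioc] at hp
      rw [mem_filter, mem_range]
      exact ⟨by omega, hp.2⟩
    exact_mod_cast h4
  have hlog : ∀ᶠ y : ℕ in atTop, (1 : ℝ) ≤ Real.log y :=
    (Real.tendsto_log_atTop.comp tendsto_natCast_atTop_atTop).eventually_ge_atTop 1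
  induction k with
  | zero =>
    obtain ⟨y0, h⟩ := eventually_atTop.mp (hQ.and hlog)
    refine ⟨1 / 2, by norm_num, y0, fun y hy =>
      ⟨(Icc 1 y).filter Nat.Prime, Finset.filter_subset _ _, ?_, ?_⟩⟩
    · intro a ha j hj
      have : j = 0 := by omega
      subst this
      exact (mem_filter.mp ha).2
    · obtain ⟨h1, h2⟩ := h y hy
      have h3 : (Nat.primeCounting y : ℝ) ≤ ((Icc 1 y).filter Nat.Prime).card := by
        have : Nat.primeCounting y ≤ ((Icc 1 y).filter Nat.Prime).card := by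
          rw [Nat.primeCounting, Nat.primeCounting', Nat.count_eq_card_filter_range]
          apply Finset.card_le_card
          intro p hp
          rw [mem_filter, mem_range] at hp
          rw [mem_filter, mem_Icc]
          exact ⟨⟨hp.2.one_lt.le, by omega⟩, hp.2⟩
        exact_mod_cast this
      have h4 : 0 < Real.log y := by linarith
      rw [div_le_iff₀ (by positivity)] at h1
      rw [zero_add, pow_one]
      have h5 : (Nat.primeCounting y : ℝ) * (2 * Real.log y) ≤
          ((Icc 1 y).filter Nat.Prime).card * (2 * Real.log y) := by gcongr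
      linarith
  | succ k ih =>
    obtain ⟨c, hc, y0, hB⟩ := ih
    have ht : ∀ᶠ y : ℕ in atTop, max y0 1 ≤ Nat.primeCounting y :=
      Nat.tendsto_primeCounting.eventually_ge_atTop _
    obtain ⟨y1, h1⟩ := eventually_atTop.mp (hQ.and (ht.and hlog))
    refine ⟨c / 2, by positivity, y1, fun y hy => ?_⟩
    obtain ⟨h2, h3, h4⟩ := h1 y hy
    have h3a : y0 ≤ Nat.primeCounting y := (le_max_left _ _).trans h3
    have h3b : 1 ≤ Nat.primeCounting y := (le_max_right _ _).trans h3
    obtain ⟨S, hS1, hS2, hS3⟩ := hB _ h3a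
    have hpi : ∀ m : ℕ, 1 ≤ m → Nat.primeCounting (Nat.nth Nat.Prime (m - 1)) = m := by
      intro m hm
      rw [Nat.primeCounting, Nat.primeCounting', Nat.count_succ, ← Nat.primeCounting',
        Nat.primeCounting'_nth_eq, if_pos (Nat.prime_nth_prime _)]
      omega
    have hinj : Set.InjOn (fun m : ℕ => Nat.nth Nat.Prime (m - 1)) (S : Set ℕ) := by
      intro a ha b hb hab
      have ha1 := (mem_Icc.mp (hS1 ha)).1
      have hb1 := (mem_Icc.mp (hS1 hb)).1
      simp only at hab
      rw [← hpi a ha1, ← hpi b hb1, hab]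
    refine ⟨S.image (fun m : ℕ => Nat.nth Nat.Prime (m - 1)), ?_, ?_, ?_⟩
    · intro p hp
      obtain ⟨m, hm, rfl⟩ := mem_image.mp hp
      have hm1 := mem_Icc.mp (hS1 hm)
      rw [mem_Icc]
      refine ⟨(Nat.prime_nth_prime _).one_lt.le, ?_⟩
      have h5 : m - 1 < Nat.count Nat.Prime (y + 1) := by
        have : Nat.primeCounting y = Nat.count Nat.Prime (y + 1) := rfl
        omega
      have h6 := Nat.nth_lt_of_lt_count h5
      omega
    · intro p hp j hj
      obtain ⟨m, hm, rfl⟩ := mem_image.mp hp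
      have hm1 := mem_Icc.mp (hS1 hm)
      rcases j with _ | j
      · exact Nat.prime_nth_prime _
      · rw [Function.iterate_succ_apply, hpi m hm1.1]
        exact hS2 m hm j (by omega)
    · rw [Finset.card_image_of_injOn hinj]
      have hle : (Nat.primeCounting y : ℝ) ≤ y := by exact_mod_cast pi_le_self y
      have hge1 : (1 : ℝ) ≤ Nat.primeCounting y := by exact_mod_cast h3b
      have hlog1 : 0 ≤ Real.log (Nat.primeCounting y) := Real.log_nonneg hge1
      have hlog2 : Real.log (Nat.primeCounting y) ≤ Real.log y :=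
        Real.log_le_log (by linarith) hle
      have hly : 0 < Real.log y := by linarith
      rw [div_le_iff₀ (by positivity)] at h2
      calc c / 2 * (y : ℝ) ≤ c / 2 * (Nat.primeCounting y * (2 * Real.log y)) := by gcongr
        _ = (c * Nat.primeCounting y) * Real.log y := by ring
        _ ≤ (S.card * Real.log (Nat.primeCounting y) ^ (k + 1)) * Real.log y := by gcongr
        _ ≤ (S.card * Real.log y ^ (k + 1)) * Real.log y := by gcongr
        _ = S.card * Real.log y ^ (k + 1 + 1) := by ring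

/-- pointwise bound for the singular factor -/
lemma gg_le : ∃ C : ℝ, 1 ≤ C ∧ ∀ L h : ℕ, 1 ≤ h → h ≤ L →
    gg h ≤ C * Real.log (Real.log L + 4) := by
  classical
  obtain ⟨C, hC, hE⟩ := euler_le
  refine ⟨Real.exp 1 * C, one_le_mul_of_one_le_of_one_le (Real.one_le_exp (by norm_num)) hC, ?_⟩
  intro L h hh hL
  have hL1 : 1 ≤ L := hh.trans hL
  have hL1' : (1 : ℝ) ≤ L := by exact_mod_cast hL1
  have hlog0 : 0 ≤ Real.log L := Real.log_nonneg hL1'
  set k : ℕ := ⌈Real.log L⌉₊ + 3 with hk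
  have hk3 : 3 ≤ k := by omega
  have hk0 : k ≠ 0 := by omega
  have hkL : Real.log L ≤ k := by
    have := Nat.le_ceil (Real.log L)
    rw [hk]
    push_cast
    linarith
  have hkU : (k : ℝ) ≤ Real.log L + 4 := by
    have := (Nat.ceil_lt_add_one hlog0).le
    rw [hk]
    push_cast
    linarith
  have hlk : 0 < Real.log k := Real.log_pos (by exact_mod_cast (by omega : 1 < k))
  have h1 : gg h ^ k ≤ ∑ h' ∈ Icc 1 L, gg h' ^ k := by
    apply Finset.single_le_sum (f := fun h' => gg h' ^ k)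
    · intro i _
      have := one_le_gg i
      positivity
    · rw [mem_Icc]; exact ⟨hh, hL⟩
  have h2 := moment_le k L
  have h3 := hE k L hk3
  have h4 : (L : ℝ) ≤ Real.exp 1 ^ k := by
    rw [← Real.exp_nat_mul, mul_one]
    calc (L : ℝ) = Real.exp (Real.log L) := (Real.exp_log (by linarith)).symm
      _ ≤ _ := Real.exp_le_exp.mpr hkL
  have h5 : gg h ^ k ≤ (Real.exp 1 * (C * Real.log k)) ^ k := by
    calc gg h ^ k ≤ _ := h1
      _ ≤ L * ∏ p ∈ PY L, (1 + wt k p / p) := h2
      _ ≤ L * (C * Real.log k) ^ k := by gcongr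
      _ ≤ Real.exp 1 ^ k * (C * Real.log k) ^ k := by gcongr
      _ = _ := (mul_pow _ _ _).symm
  have h6 : gg h ≤ Real.exp 1 * (C * Real.log k) :=
    le_of_pow_le_pow_left₀ hk0 (by positivity) h5
  refine h6.trans ?_
  rw [mul_assoc]
  gcongr

lemma energy {α β : Type*} [DecidableEq β] (Z : Finset α) (f : α → β) :
    (Z.card : ℝ) ^ 2 ≤ (Z.image f).card * ((Z ×ˢ Z).filter (fun z => f z.1 = f z.2)).card := by
  classical
  set n : β → ℝ := fun b => ((Z.filter (fun a => f a = b)).card : ℝ) with hn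
  have h1 : (Z.card : ℝ) = ∑ b ∈ Z.image f, n b := by
    have := Finset.card_eq_sum_card_image f Z
    rw [this]
    push_cast
    rfl
  have h2 : (((Z ×ˢ Z).filter (fun z => f z.1 = f z.2)).card : ℝ) = ∑ b ∈ Z.image f, n b ^ 2 := by
    rw [Finset.card_filter, Finset.sum_product_right]
    push_cast
    have h3 : ∀ y ∈ Z, (∑ x ∈ Z, if f x = f y then (1 : ℝ) else 0) = n (f y) := by
      intro y _
      simp only [hn]
      rw [Finset.card_filter]
      push_cast
      rfl
    rw [Finset.sum_congr rfl h3]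
    rw [Finset.sum_comp (fun b => n b) f]
    apply Finset.sum_congr rfl
    intro b _
    rw [nsmul_eq_mul, sq]
  rw [h1, h2]
  exact sq_sum_le_card_mul_sum_sq

/-- the additive energy inside windows -/
lemma energy_le (a X L Y : ℕ) (A Q : Finset ℕ) (hL : 1 ≤ L)
    (hA : A ⊆ Ioc 0 Y) (hAp : ∀ p ∈ A, p.Prime) (hQ : Q ⊆ range X) (hQa : ∀ q ∈ Q, PI a q)
    (r : ℝ) (hr : ∀ h, 1 ≤ h → h ≤ L →
      (((Ioc 0 Y).filter (fun n => n.Prime ∧ (n + h).Prime)).card : ℝ) ≤ r) :
    ((((A ×ˢ Q) ×ˢ (A ×ˢ Q)).filter (fun z : (ℕ × ℕ) × (ℕ × ℕ) =>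
      ((z.1.1 / L, z.1.1 + z.1.2) : ℕ × ℕ) = (z.2.1 / L, z.2.1 + z.2.2))).card : ℝ) ≤
      A.card * Q.card + 2 * ((TT a X L).card * r) := by
  classical
  set W := ((A ×ˢ Q) ×ˢ (A ×ˢ Q)).filter (fun z : (ℕ × ℕ) × (ℕ × ℕ) =>
      ((z.1.1 / L, z.1.1 + z.1.2) : ℕ × ℕ) = (z.2.1 / L, z.2.1 + z.2.2)) with hW
  have hmem : ∀ z, z ∈ W ↔ (((z.1.1 ∈ A ∧ z.1.2 ∈ Q) ∧ (z.2.1 ∈ A ∧ z.2.2 ∈ Q)) ∧
      z.1.1 / L = z.2.1 / L ∧ z.1.1 + z.1.2 = z.2.1 + z.2.2) := by
    intro z
    rw [hW, mem_filter, mem_product, mem_product, mem_product, Prod.mk.injEq]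
  have hcov : W ⊆ W.filter (fun z => z.1.1 = z.2.1) ∪
      (W.filter (fun z => z.1.1 < z.2.1) ∪ W.filter (fun z => z.2.1 < z.1.1)) := by
    intro z hz
    rcases lt_trichotomy z.1.1 z.2.1 with h | h | h
    · exact mem_union_right _ (mem_union_left _ (mem_filter.mpr ⟨hz, h⟩))
    · exact mem_union_left _ (mem_filter.mpr ⟨hz, h⟩)
    · exact mem_union_right _ (mem_union_right _ (mem_filter.mpr ⟨hz, h⟩))
  have h0 : (W.filter (fun z => z.1.1 = z.2.1)).card ≤ A.card * Q.card := by
    rw [← Finset.card_product]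
    apply Finset.card_le_card_of_injOn (fun z => z.1)
    · intro z hz
      rw [Finset.mem_coe, mem_filter, hmem] at hz
      rw [Finset.mem_coe, mem_product]
      exact hz.1.1.1
    · intro z hz w hw hzw
      rw [Finset.mem_coe, mem_filter, hmem] at hz hw
      simp only at hzw
      obtain ⟨⟨_, _, g1⟩, g2⟩ := hz
      obtain ⟨⟨_, _, g3⟩, g4⟩ := hw
      have e1 : z.1.1 = w.1.1 := by rw [hzw]
      have e2 : z.1.2 = w.1.2 := by rw [hzw]
      exact Prod.ext hzw (Prod.ext (by omega) (by omega))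
  have h1 : ((W.filter (fun z => z.1.1 < z.2.1)).card : ℝ) ≤ (TT a X L).card * r := by
    have k1 : (W.filter (fun z => z.1.1 < z.2.1)).card ≤
        (((TT a X L) ×ˢ (Ioc 0 Y)).filter (fun v : (ℕ × ℕ) × ℕ =>
          v.2.Prime ∧ (v.2 + (v.1.2 - v.1.1)).Prime)).card := by
      apply Finset.card_le_card_of_injOn (fun z => ((z.2.2, z.1.2), z.1.1))
      · intro z hz
        rw [Finset.mem_coe, mem_filter, hmem] at hz
        obtain ⟨⟨⟨⟨g1, g2⟩, g3, g4⟩, g5, g6⟩, g7⟩ := hz
        rw [Finset.mem_coe, mem_filter, mem_product, mem_TT]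
        have hp := hAp _ g1
        have hp' := hAp _ g3
        have e1 := Nat.div_add_mod z.1.1 L
        have e2 := Nat.div_add_mod z.2.1 L
        have e3 := Nat.mod_lt z.1.1 (by omega : L > 0)
        have e4 := Nat.mod_lt z.2.1 (by omega : L > 0)
        rw [← g5] at e2
        have e5 : z.2.1 ≤ z.1.1 + L := by
          generalize L * (z.1.1 / L) = t at e1 e2
          omega
        simp only
        refine ⟨⟨⟨mem_range.mp (hQ g4), by omega, by omega, hQa _ g4, hQa _ g2⟩, hA g1⟩, hp, ?_⟩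
        have : z.1.1 + (z.1.2 - z.2.2) = z.2.1 := by omega
        rw [this]
        exact hp'
      · intro z hz w hw hzw
        rw [Finset.mem_coe, mem_filter, hmem] at hz hw
        simp only [Prod.mk.injEq] at hzw
        obtain ⟨⟨_, _, g1⟩, g2⟩ := hz
        obtain ⟨⟨_, _, g3⟩, g4⟩ := hw
        obtain ⟨⟨e1, e2⟩, e3⟩ := hzw
        exact Prod.ext (Prod.ext e3 e2) (Prod.ext (by omega) e1)
    have k2 : (((TT a X L) ×ˢ (Ioc 0 Y)).filter (fun v : (ℕ × ℕ) × ℕ =>
          v.2.Prime ∧ (v.2 + (v.1.2 - v.1.1)).Prime)).card =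
        ∑ w ∈ TT a X L, ((Ioc 0 Y).filter (fun n => n.Prime ∧ (n + (w.2 - w.1)).Prime)).card := by
      rw [Finset.card_filter, Finset.sum_product]
      apply Finset.sum_congr rfl
      intro w _
      rw [Finset.card_filter]
    have k3 : ((W.filter (fun z => z.1.1 < z.2.1)).card : ℝ) ≤
        ∑ w ∈ TT a X L,
          (((Ioc 0 Y).filter (fun n => n.Prime ∧ (n + (w.2 - w.1)).Prime)).card : ℝ) := by
      rw [k2] at k1
      exact_mod_cast k1
    refine k3.trans ?_
    rw [← nsmul_eq_mul]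
    apply Finset.sum_le_card_nsmul
    intro w hw
    rw [mem_TT] at hw
    exact hr _ (by omega) (by omega)
  have h2 : (W.filter (fun z => z.2.1 < z.1.1)).card ≤ (W.filter (fun z => z.1.1 < z.2.1)).card := by
    apply Finset.card_le_card_of_injOn (fun z => (z.2, z.1))
    · intro z hz
      rw [Finset.mem_coe, mem_filter, hmem] at hz
      rw [Finset.mem_coe, mem_filter, hmem]
      obtain ⟨⟨⟨g1, g2⟩, g5, g6⟩, g7⟩ := hz
      exact ⟨⟨⟨g2, g1⟩, g5.symm, g6.symm⟩, g7⟩
    · intro z _ w _ hzw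
      simp only [Prod.mk.injEq] at hzw
      exact Prod.ext hzw.2 hzw.1
  have h3 := (Finset.card_le_card hcov).trans ((Finset.card_union_le _ _).trans
    (Nat.add_le_add_left (Finset.card_union_le _ _) _))
  have h3' : (W.card : ℝ) ≤ (W.filter (fun z => z.1.1 = z.2.1)).card +
      ((W.filter (fun z => z.1.1 < z.2.1)).card + (W.filter (fun z => z.2.1 < z.1.1)).card) := by
    exact_mod_cast h3
  have h0' : ((W.filter (fun z => z.1.1 = z.2.1)).card : ℝ) ≤ A.card * Q.card := by
    exact_mod_cast h0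
  have h2' : ((W.filter (fun z => z.2.1 < z.1.1)).card : ℝ) ≤
      (W.filter (fun z => z.1.1 < z.2.1)).card := by exact_mod_cast h2
  linarith

end Pool.Agent.TH665.GP
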