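import Pool.Agent.TH665.GP.T1

set_option autoImplicit false

open Finset Filter Topology

namespace Pool.Agent.TH665.GP

open Pool.Agent.H197R2.PG (PI pi_lower pi_le_self)

/-- powers of the logarithm against powers of `x` -/
lemma ev_pow (n : ℕ) (c s : ℝ) (hc : 0 < c) (hs : 0 < s) :
    ∀ᶠ x : ℕ in atTop, c * Real.log x ^ n ≤ (x : ℝ) ^ s := by
  have h1 := (isLittleO_log_rpow_rpow_atTop (n : ℝ) hs).bound (by positivity : (0 : ℝ) < 1 / c)
  have h2 : ∀ᶠ x : ℝ in atTop, c * Real.log x ^ n ≤ x ^ s := by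
    filter_upwards [h1, eventually_ge_atTop 1] with x h1 h2
    have hl : 0 ≤ Real.log x := Real.log_nonneg h2
    rw [Real.rpow_natCast, Real.norm_of_nonneg (by positivity),
      Real.norm_of_nonneg (by positivity)] at h1
    calc c * Real.log x ^ n ≤ c * (1 / c * x ^ s) := by gcongr
      _ = x ^ s := by field_simp
  exact tendsto_natCast_atTop_atTop.eventually h2

lemma ev_log_ge (c : ℝ) : ∀ᶠ x : ℕ in atTop, c ≤ Real.log x :=
  (Real.tendsto_log_atTop.comp tendsto_natCast_atTop_atTop).eventually_ge_atTop c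

/-- bounds for `y = π(x) + 1` -/
lemma ev_pi : ∀ᶠ x : ℕ in atTop,
    ((Nat.primeCounting x + 1 : ℕ) : ℝ) ≤ 4 * x / Real.log x ∧
    Real.log x / 2 ≤ Real.log ((Nat.primeCounting x + 1 : ℕ) : ℝ) ∧
    Real.log ((Nat.primeCounting x + 1 : ℕ) : ℝ) ≤ Real.log x := by
  filter_upwards [pi_lower, ev_pow 2 1 (1 / 2) one_pos (by norm_num), ev_log_ge 4,
    ev_pow 1 10 (1 / 2) (by norm_num) (by norm_num), eventually_ge_atTop 100]
    with x h1 h2 h3 h4 h5
  have hx100 : (100 : ℝ) ≤ x := by exact_mod_cast h5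
  have hx0 : (0 : ℝ) < x := by linarith
  have hl0 : 0 < Real.log x := by linarith
  have hs : (x : ℝ) ^ (1 / 2 : ℝ) = Real.sqrt x := by rw [Real.sqrt_eq_rpow]
  rw [hs] at h2 h4
  have hss : Real.sqrt x * Real.sqrt x = x := Real.mul_self_sqrt hx0.le
  have hs0 : 0 < Real.sqrt x := Real.sqrt_pos.mpr hx0
  have hs1 : 1 ≤ Real.sqrt x := by nlinarith
  have hA : ((Nat.primeCounting x + 1 : ℕ) : ℝ) ≤ 4 * x / Real.log x := by
    have h6 := Chebyshev.pi_le_log4_mul_div (x := (x : ℝ)) (by linarith)
    rw [Nat.floor_natCast, Real.log_sqrt hx0.le] at h6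
    have hl4 : Real.log 4 ≤ 1.3864 := by
      have : Real.log 4 = 2 * Real.log 2 := by
        rw [show (4 : ℝ) = 2 ^ 2 by norm_num, Real.log_pow]; norm_num
      have := Real.log_two_lt_d9
      linarith
    have h7 : Real.log 4 * x / (Real.log x / 2) ≤ 2.7728 * x / Real.log x := by
      rw [div_le_div_iff₀ (by positivity) hl0]
      nlinarith [mul_pos hx0 hl0]
    have h8 : Real.sqrt x ≤ x / Real.log x / 10 := by
      rw [le_div_iff₀ (by norm_num), le_div_iff₀ hl0]
      nlinarith
    push_cast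
    have h9 : (4 : ℝ) * x / Real.log x = 2.7728 * x / Real.log x + 1.2272 * (x / Real.log x) := by
      ring
    rw [h9]
    have h10 : 0 < x / Real.log x := by positivity
    linarith
  refine ⟨hA, ?_, ?_⟩
  · have h6 : Real.sqrt x ≤ Nat.primeCounting x := by
      by_contra hcon
      rw [not_le] at hcon
      have h7 : (Nat.primeCounting x : ℝ) * Real.log x ^ 2 < Real.sqrt x * Real.sqrt x := by
        have h8 : Real.log x ^ 2 ≤ Real.sqrt x := by linarith
        calc (Nat.primeCounting x : ℝ) * Real.log x ^ 2 < Real.sqrt x * Real.log x ^ 2 := by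
              apply mul_lt_mul_of_pos_right hcon (by positivity)
          _ ≤ _ := by gcongr
      rw [hss] at h7
      linarith
    have h7 : Real.log (Real.sqrt x) ≤ Real.log ((Nat.primeCounting x + 1 : ℕ) : ℝ) := by
      apply Real.log_le_log hs0
      push_cast
      linarith
    rw [Real.log_sqrt hx0.le] at h7
    exact h7
  · apply Real.log_le_log (by positivity)
    refine hA.trans ?_
    rw [div_le_iff₀ hl0]
    nlinarith

/-- the main bound for pairs of iterated primes at small distance -/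
theorem TT_le (a : ℕ) : ∃ E : ℕ, ∀ F : ℕ, ∃ C : ℝ, 0 < C ∧ ∃ x0 : ℕ, ∀ x L : ℕ, x0 ≤ x →
    Real.log x ^ E ≤ L → (L : ℝ) ≤ Real.log x ^ F →
    ((TT a x L).card : ℝ) ≤ C * L * x / Real.log x ^ (2 * a + 2) := by
  classical
  induction a with
  | zero =>
    refine ⟨0, fun F => ?_⟩
    obtain ⟨C, hC, x0, hx0⟩ := TT_zero
    obtain ⟨x1, hx1⟩ := eventually_atTop.mp (ev_pow F 2 (1 / 16) (by norm_num) (by norm_num))
    refine ⟨C, hC, max x0 x1, ?_⟩
    intro x L hx _ hL
    have h1 := hx1 x ((le_max_right _ _).trans hx)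
    exact hx0 x L ((le_max_left _ _).trans hx) (by linarith)
  | succ a ih =>
    obtain ⟨E, hE⟩ := ih
    refine ⟨E + 2 * a + 23, fun F => ?_⟩
    obtain ⟨C1, hC1, x1, hx1⟩ := hE (F + 1)
    obtain ⟨x2, hx2⟩ := bad_le
    have hpi : Tendsto (fun x : ℕ => Nat.primeCounting x + 1) atTop atTop :=
      tendsto_atTop_mono (fun x => Nat.le_succ _) Nat.tendsto_primeCounting
    obtain ⟨x3, hx3⟩ := eventually_atTop.mp ((ev_pow F 1 (1 / 4) one_pos (by norm_num)).and
      ((ev_log_ge (193 * 2 ^ (F + 1))).and (ev_pi.and ((hpi.eventually_ge_atTop x1).and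
        (eventually_ge_atTop x2)))))
    refine ⟨C1 * 772 * 2 ^ (2 * a + 2) + 1, by positivity, x3, ?_⟩
    intro x L hx hLE hLF
    obtain ⟨g1, g2, ⟨g3, g4, g5⟩, g6, g7⟩ := hx3 x hx
    set l : ℝ := Real.log x with hl
    have h2F : (1 : ℝ) ≤ 2 ^ (F + 1) := one_le_pow₀ (by norm_num)
    have hl193 : 193 ≤ l := by nlinarith
    have hl0 : 0 < l := by linarith
    have hl1 : 1 ≤ l := by linarith
    have hx0 : (0 : ℝ) < x := by
      rcases Nat.eq_zero_or_pos x with h | h
      · rw [h] at hl; simp at hl; linarith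
      · exact_mod_cast h
    have hLpos : (1 : ℝ) ≤ L := (one_le_pow₀ hl1).trans hLE
    have hL1 : 1 ≤ L := by exact_mod_cast hLpos
    have hL0 : (0 : ℝ) < L := by linarith
    set y : ℕ := Nat.primeCounting x + 1 with hy
    set J : ℕ := ⌊193 * (L : ℝ) / l⌋₊ with hJ
    have hJle : (J : ℝ) ≤ 193 * L / l := Nat.floor_le (by positivity)
    have hJlt : 193 * (L : ℝ) / l < J + 1 := Nat.lt_floor_add_one _
    have hstep := TT_step a x L J
    -- the bad part
    have hbad : (((range x).filter (fun n => J < pc L n)).card : ℝ) ≤ x * l ^ 18 / L := by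
      refine le_trans ?_ (hx2 x L g7 hL1 (by linarith))
      have : (range x).filter (fun n => J < pc L n) ⊆
          (range x).filter (fun n => 193 * (L : ℝ) / Real.log x < pc L n) := by
        intro n hn
        rw [mem_filter] at hn ⊢
        exact ⟨hn.1, Nat.lt_of_floor_lt hn.2⟩
      exact_mod_cast Finset.card_le_card this
    have hbad2 : (((range x).filter (fun n => J < pc L n)).card : ℝ) * L ≤
        L * x / l ^ (2 * a + 4) := by
      have h1 : (((range x).filter (fun n => J < pc L n)).card : ℝ) * L ≤ x * l ^ 18 := by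
        calc _ ≤ x * l ^ 18 / L * L := by gcongr
          _ = x * l ^ 18 := by field_simp
      refine h1.trans ?_
      rw [le_div_iff₀ (by positivity)]
      have h2 : l ^ (2 * a + 22) ≤ L := by
        refine le_trans ?_ hLE
        exact pow_le_pow_right₀ hl1 (by omega)
      calc x * l ^ 18 * l ^ (2 * a + 4) = l ^ (2 * a + 22) * x := by
            rw [show 2 * a + 22 = 18 + (2 * a + 4) by ring, pow_add]; ring
        _ ≤ L * x := by gcongr
    -- the good part
    have hly0 : 0 < Real.log (y : ℝ) := by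
      have : 0 < l / 2 := by positivity
      linarith
    have hJE : Real.log (y : ℝ) ^ E ≤ J := by
      have h1 : Real.log (y : ℝ) ^ E ≤ l ^ E := by gcongr
      have h2 : l ^ (E + 1) ≤ L := by
        refine le_trans ?_ hLE
        exact pow_le_pow_right₀ hl1 (by omega)
      have h3 : l ^ E ≤ L / l := by
        rw [le_div_iff₀ hl0, ← pow_succ]
        exact h2
      have h4 : 1 ≤ l ^ E := one_le_pow₀ hl1
      have h5 : 193 * (L : ℝ) / l = 193 * (L / l) := by ring
      rw [h5] at hJlt
      linarith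
    have hJF : (J : ℝ) ≤ Real.log (y : ℝ) ^ (F + 1) := by
      have h1 : 193 * (L : ℝ) / l ≤ 193 * l ^ F := by
        rw [div_le_iff₀ hl0]
        have : 0 < l ^ F := by positivity
        nlinarith [mul_le_mul hLF hl1 (by norm_num : (0 : ℝ) ≤ 1) this.le]
      have h2 : 193 * l ^ F ≤ (l / 2) ^ (F + 1) := by
        rw [div_pow, le_div_iff₀ (by positivity), pow_succ l F]
        have : 0 < l ^ F := by positivity
        nlinarith
      have h3 : (l / 2) ^ (F + 1) ≤ Real.log (y : ℝ) ^ (F + 1) := by gcongr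
      linarith
    have hgood := hx1 y J g6 hJE hJF
    have hgood2 : ((TT a y J).card : ℝ) ≤
        C1 * 772 * 2 ^ (2 * a + 2) * (L * x / l ^ (2 * a + 4)) := by
      refine hgood.trans ?_
      calc C1 * J * y / Real.log (y : ℝ) ^ (2 * a + 2)
          ≤ C1 * (193 * L / l) * (4 * x / l) / (l / 2) ^ (2 * a + 2) := by gcongr
        _ = C1 * 772 * 2 ^ (2 * a + 2) * (L * x / l ^ (2 * a + 4)) := by
            rw [div_pow, show 2 * a + 4 = (2 * a + 2) + 2 by ring, pow_add]
            field_simp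
            ring
    have hcast : ((TT (a + 1) x L).card : ℝ) ≤ (TT a y J).card +
        (((range x).filter (fun n => J < pc L n)).card : ℝ) * L := by
      exact_mod_cast hstep
    calc ((TT (a + 1) x L).card : ℝ) ≤ _ := hcast
      _ ≤ C1 * 772 * 2 ^ (2 * a + 2) * (L * x / l ^ (2 * a + 4)) + L * x / l ^ (2 * a + 4) := by
          linarith
      _ = (C1 * 772 * 2 ^ (2 * a + 2) + 1) * L * x / l ^ (2 * (a + 1) + 2) := by
          rw [show 2 * (a + 1) + 2 = 2 * a + 4 by ring]
          ring

end Pool.Agent.TH665.GP
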