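import Pool.Agent.TH665.GP.F1
import Pool.Agent.TH665.GP.T2

set_option autoImplicit false

open Finset Filter Topology

namespace Pool.Agent.TH665.GP

open Pool.Agent.H197R2.PG (PI gg one_le_gg pair_sieve_sharp gg_two_mul_le)

/-- density of the odd iterated primes -/
lemma density3 (k : ℕ) : ∃ c : ℝ, 0 < c ∧ ∃ y0 : ℕ, ∀ y : ℕ, y0 ≤ y → ∃ S : Finset ℕ,
    S ⊆ Icc 3 y ∧ (∀ a ∈ S, PI k a) ∧ c * y ≤ S.card * Real.log y ^ (k + 1) := by
  classical
  obtain ⟨c, hc, y0, h⟩ := density k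
  obtain ⟨y1, h1⟩ := eventually_atTop.mp ((ev_pow (k + 1) (2 / c) 1 (by positivity) one_pos).and
    (ev_log_ge 1))
  refine ⟨c / 2, by positivity, max y0 y1, fun y hy => ?_⟩
  obtain ⟨S, hS1, hS2, hS3⟩ := h y ((le_max_left _ _).trans hy)
  obtain ⟨g1, g2⟩ := h1 y ((le_max_right _ _).trans hy)
  rw [Real.rpow_one] at g1
  refine ⟨S.filter (fun p => 3 ≤ p), ?_, ?_, ?_⟩
  · intro p hp
    rw [mem_filter] at hp
    rw [mem_Icc]
    exact ⟨hp.2, (mem_Icc.mp (hS1 hp.1)).2⟩
  · intro p hp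
    exact hS2 p (mem_filter.mp hp).1
  · have h2 : S ⊆ insert 2 (S.filter (fun p => 3 ≤ p)) := by
      intro p hp
      rw [mem_insert, mem_filter]
      have := (PI_prime (hS2 p hp)).two_le
      rcases Nat.lt_or_ge p 3 with h3 | h3
      · left; omega
      · right; exact ⟨hp, h3⟩
    have h3 : (S.card : ℝ) ≤ (S.filter (fun p => 3 ≤ p)).card + 1 := by
      exact_mod_cast (Finset.card_le_card h2).trans (Finset.card_insert_le _ _)
    have hl : 0 ≤ Real.log y ^ (k + 1) := by positivity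
    have h4 : Real.log y ^ (k + 1) ≤ c / 2 * y := by
      have : 2 / c * Real.log y ^ (k + 1) * (c / 2) ≤ y * (c / 2) := by gcongr
      calc Real.log y ^ (k + 1) = 2 / c * Real.log y ^ (k + 1) * (c / 2) := by field_simp
        _ ≤ _ := this
        _ = _ := by ring
    have h5 : S.card * Real.log y ^ (k + 1) ≤
        ((S.filter (fun p => 3 ≤ p)).card + 1) * Real.log y ^ (k + 1) := by gcongr
    linarith

/-- purely algebraic end of the argument -/
lemma finish {u s T r Y L X lam l G c1 c2 C3 C6 : ℝ} {a b : ℕ} (hu : 0 < u) (hs : 0 ≤ s)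
    (_hT0 : 0 ≤ T) (hr0 : 0 ≤ r) (hY : 0 < Y) (hL : 0 < L) (hX : 0 < X)
    (hlam : 1 ≤ lam) (hl : 1 ≤ l) (hG : 1 ≤ G) (hc1 : 0 < c1) (hc2 : 0 < c2) (hC3 : 0 < C3)
    (hC6 : 0 < C6)
    (hen : u ^ 2 ≤ (2 * Y / L * s) * (u + 2 * (T * r)))
    (huL : c1 * c2 * (Y * X) ≤ u * (lam ^ (b + 1) * l ^ (a + 1)))
    (hT : T ≤ C3 * L * X / l ^ (2 * a + 2)) (hr : r ≤ C6 * G * Y / lam ^ 2)
    (hLl : lam ^ (b + 1) * l ^ (a + 1) ≤ L) :
    min (c1 * c2 / 4) ((c1 * c2) ^ 2 / (8 * C3 * C6)) * X / (lam ^ (2 * b) * G) ≤ s := by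
  have hlam0 : 0 < lam := by linarith
  have hl0 : 0 < l := by linarith
  have hG0 : 0 < G := by linarith
  have hD : 1 ≤ lam ^ (2 * b) * G := one_le_mul_of_one_le_of_one_le (one_le_pow₀ hlam) hG
  have hD0 : 0 < lam ^ (2 * b) * G := by positivity
  rcases le_total (2 * (T * r)) u with h | h
  · have h1 : u ^ 2 ≤ (2 * Y / L * s) * (2 * u) := by
      refine hen.trans ?_
      apply mul_le_mul_of_nonneg_left _ (by positivity)
      linarith
    have h2 : u ≤ 4 * Y / L * s := by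
      have h3 : u * u ≤ (4 * Y / L * s) * u := by
        calc u * u = u ^ 2 := by ring
          _ ≤ _ := h1
          _ = _ := by ring
      exact le_of_mul_le_mul_right h3 hu
    have h3 : c1 * c2 * (Y * X) ≤ (4 * Y / L * s) * L := by
      calc c1 * c2 * (Y * X) ≤ u * (lam ^ (b + 1) * l ^ (a + 1)) := huL
        _ ≤ (4 * Y / L * s) * L := by
            apply mul_le_mul h2 hLl (by positivity) (by positivity)
    have h4 : (4 * Y / L * s) * L = 4 * Y * s := by field_simp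
    rw [h4] at h3
    have h5 : c1 * c2 / 4 * X ≤ s := by
      have : Y * (c1 * c2 / 4 * X) ≤ Y * s := by linarith
      exact le_of_mul_le_mul_left this hY
    calc min (c1 * c2 / 4) ((c1 * c2) ^ 2 / (8 * C3 * C6)) * X / (lam ^ (2 * b) * G)
        ≤ (c1 * c2 / 4) * X / (lam ^ (2 * b) * G) := by
          gcongr
          exact min_le_left _ _
      _ ≤ (c1 * c2 / 4) * X := div_le_self (by positivity) hD
      _ ≤ s := h5
  · have h1 : u ^ 2 ≤ (2 * Y / L * s) * (4 * (T * r)) := by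
      refine hen.trans ?_
      apply mul_le_mul_of_nonneg_left _ (by positivity)
      linarith
    have h2 : T * r ≤ (C3 * L * X / l ^ (2 * a + 2)) * (C6 * G * Y / lam ^ 2) :=
      mul_le_mul hT hr hr0 (by positivity)
    have h3 : u ^ 2 ≤ (2 * Y / L * s) *
        (4 * ((C3 * L * X / l ^ (2 * a + 2)) * (C6 * G * Y / lam ^ 2))) := by
      refine h1.trans ?_
      apply mul_le_mul_of_nonneg_left _ (by positivity)
      linarith
    have h4 : (c1 * c2 * (Y * X)) ^ 2 ≤ (u * (lam ^ (b + 1) * l ^ (a + 1))) ^ 2 := by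
      gcongr
    have h5 : (u * (lam ^ (b + 1) * l ^ (a + 1))) ^ 2 =
        u ^ 2 * (lam ^ (2 * b) * lam ^ 2 * l ^ (2 * a + 2)) := by
      rw [mul_pow, mul_pow, ← pow_mul, ← pow_mul, show (b + 1) * 2 = 2 * b + 2 by ring,
        show (a + 1) * 2 = 2 * a + 2 by ring, pow_add lam (2 * b) 2]
    rw [h5] at h4
    have h6 : (c1 * c2 * (Y * X)) ^ 2 ≤ ((2 * Y / L * s) *
        (4 * ((C3 * L * X / l ^ (2 * a + 2)) * (C6 * G * Y / lam ^ 2)))) *
          (lam ^ (2 * b) * lam ^ 2 * l ^ (2 * a + 2)) := by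
      refine h4.trans ?_
      apply mul_le_mul_of_nonneg_right h3 (by positivity)
    have h7 : ((2 * Y / L * s) *
        (4 * ((C3 * L * X / l ^ (2 * a + 2)) * (C6 * G * Y / lam ^ 2)))) *
          (lam ^ (2 * b) * lam ^ 2 * l ^ (2 * a + 2)) =
        (Y ^ 2 * X) * (8 * C3 * C6 * (lam ^ (2 * b) * G) * s) := by
      field_simp
      ring
    rw [h7] at h6
    have h8 : (c1 * c2 * (Y * X)) ^ 2 = (Y ^ 2 * X) * ((c1 * c2) ^ 2 * X) := by ring
    rw [h8] at h6
    have h9 : (c1 * c2) ^ 2 * X ≤ 8 * C3 * C6 * (lam ^ (2 * b) * G) * s :=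
      le_of_mul_le_mul_left h6 (by positivity)
    calc min (c1 * c2 / 4) ((c1 * c2) ^ 2 / (8 * C3 * C6)) * X / (lam ^ (2 * b) * G)
        ≤ ((c1 * c2) ^ 2 / (8 * C3 * C6)) * X / (lam ^ (2 * b) * G) := by
          gcongr
          exact min_le_right _ _
      _ = ((c1 * c2) ^ 2 * X) / (8 * C3 * C6 * (lam ^ (2 * b) * G)) := by
          field_simp
      _ ≤ s := by
          rw [div_le_iff₀ (by positivity)]
          linarith

/-- the counting core, for numbers up to `X` -/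
theorem core (a b : ℕ) : ∃ c : ℝ, 0 < c ∧ ∀ᶠ X : ℕ in atTop, ∃ S : Finset ℕ,
    (∀ N ∈ S, N ≤ X ∧ ∃ p q : ℕ, p < q ∧ p % 2 = 1 ∧ q % 2 = 1 ∧ PI b p ∧ PI a q ∧ q + p = N) ∧
    c * X / (Real.log (Real.log X) ^ (2 * b) * Real.log (Real.log (Real.log X))) ≤ S.card := by
  classical
  obtain ⟨E, hE⟩ := TT_le a
  set e0 : ℕ := E + a + 3 with he0
  set F : ℕ := e0 + 1 with hF
  obtain ⟨C3, hC3, x1, hT⟩ := hE F
  obtain ⟨c1, hc1, y1, hA⟩ := density3 b
  obtain ⟨c2, hc2, y2, hQ⟩ := density3 a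
  obtain ⟨C4, hC4, u0, hps⟩ := pair_sieve_sharp
  obtain ⟨C5, hC5, hgg⟩ := gg_le
  set K : ℝ := 16 * (F + 1 : ℝ) with hK
  have hK1 : 1 ≤ K := by
    have : (0 : ℝ) ≤ F := Nat.cast_nonneg _
    rw [hK]; nlinarith
  set C6 : ℝ := C4 * (3 / 2) * C5 with hC6
  have hC60 : 0 < C6 := by positivity
  set cc0 : ℝ := min (c1 * (c2 / 4) / 4) ((c1 * (c2 / 4)) ^ 2 / (8 * C3 * C6)) with hcc0
  have hcc00 : 0 < cc0 := lt_min (by positivity) (by positivity)
  refine ⟨cc0 / (K ^ (2 * b) * 2), by positivity, ?_⟩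
  -- eventual facts in terms of `l = log X`
  have hloglog : Tendsto (fun X : ℕ => Real.log (X : ℝ)) atTop atTop :=
    Real.tendsto_log_atTop.comp tendsto_natCast_atTop_atTop
  have hll : ∀ᶠ l : ℝ in atTop, (K * Real.log l) ^ (b + 1) ≤ l := by
    have h1 := (isLittleO_log_rpow_rpow_atTop ((b + 1 : ℕ) : ℝ) one_pos).bound
      (by positivity : (0 : ℝ) < 1 / K ^ (b + 1))
    filter_upwards [h1, eventually_ge_atTop 1] with l h1 h2
    have hl : 0 ≤ Real.log l := Real.log_nonneg h2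
    rw [Real.rpow_natCast, Real.rpow_one, Real.norm_of_nonneg (by positivity),
      Real.norm_of_nonneg (by positivity)] at h1
    rw [mul_pow]
    calc K ^ (b + 1) * Real.log l ^ (b + 1) ≤ K ^ (b + 1) * (1 / K ^ (b + 1) * l) := by gcongr
      _ = l := by field_simp
  have hl3 : ∀ᶠ l : ℝ in atTop, (F : ℝ) + 4 ≤ Real.log l :=
    Real.tendsto_log_atTop.eventually_ge_atTop _
  filter_upwards [hloglog.eventually hll, hloglog.eventually hl3,
    ev_log_ge (max 3 (max y1 u0 : ℕ)), eventually_ge_atTop x1,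
    ev_pow (16 * F + (a + 1)) (2 ^ 16 * (4 / c2)) 1 (by positivity) one_pos,
    ev_pow (16 * F) (2 ^ 17) 1 (by positivity) one_pos,
    eventually_ge_atTop (2 * y2 + 2)]
    with X g1 g2 g3 g4 g5 g6 g7
  rw [Real.rpow_one] at g5 g6
  set l : ℝ := Real.log X with hl
  have hl3' : 3 ≤ l := (le_max_left _ _).trans g3
  have hlM : ((max y1 u0 : ℕ) : ℝ) ≤ l := (le_max_right _ _).trans g3
  have hl0 : 0 < l := by linarith
  have hl1 : 1 ≤ l := by linarith
  have hX0n : 0 < X := by omega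
  have hX0 : (0 : ℝ) < X := by exact_mod_cast hX0n
  have hF0 : (0 : ℝ) ≤ F := Nat.cast_nonneg _
  have hll4 : 4 ≤ Real.log l := by linarith
  -- the window length
  set L : ℕ := ⌈l ^ e0⌉₊ with hLdef
  have hLge : l ^ e0 ≤ L := Nat.le_ceil _
  have hLle : (L : ℝ) ≤ l ^ F := by
    have h1 := (Nat.ceil_lt_add_one (by positivity : 0 ≤ l ^ e0)).le
    have h2 : 1 ≤ l ^ e0 := one_le_pow₀ hl1
    have h3 : l ^ F = l ^ e0 * l := by rw [hF, pow_succ]
    rw [h3]
    nlinarith
  have hL1r : (1 : ℝ) ≤ L := (one_le_pow₀ hl1).trans hLge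
  have hL1 : 1 ≤ L := by exact_mod_cast hL1r
  have hL0 : (0 : ℝ) < L := by linarith
  have hlL : l ≤ L := by
    refine le_trans ?_ hLge
    calc l = l ^ 1 := (pow_one l).symm
      _ ≤ l ^ e0 := pow_le_pow_right₀ hl1 (by omega)
  set Y : ℕ := (2 * L) ^ 16 with hY
  have hYr : (Y : ℝ) = (2 * (L : ℝ)) ^ 16 := by rw [hY]; push_cast; ring
  have hLY : L ≤ Y := by
    have h1 : 2 * L ≤ (2 * L) ^ 16 := Nat.le_self_pow (by norm_num) _
    omega
  have hLYr : (L : ℝ) ≤ Y := by exact_mod_cast hLY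
  have hY0 : (0 : ℝ) < Y := by linarith
  have hYle : (Y : ℝ) ≤ 2 ^ 16 * l ^ (16 * F) := by
    rw [hYr, mul_pow, mul_comm 16 F, pow_mul]
    gcongr
  have hyY : max y1 u0 ≤ Y := by
    have : ((max y1 u0 : ℕ) : ℝ) ≤ Y := hlM.trans (hlL.trans hLYr)
    exact_mod_cast this
  have hy1Y : y1 ≤ Y := (le_max_left _ _).trans hyY
  have hu0Y : u0 ≤ Y := (le_max_right _ _).trans hyY
  -- logarithms of Y and L
  set lam : ℝ := Real.log Y with hlam
  have hlogL : Real.log L ≤ F * Real.log l := by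
    calc Real.log L ≤ Real.log (l ^ F) := Real.log_le_log hL0 hLle
      _ = F * Real.log l := Real.log_pow _ _
  have hlogL0 : 0 ≤ Real.log L := Real.log_nonneg hL1r
  have hlamle : lam ≤ K * Real.log l := by
    rw [hlam, hYr, Real.log_pow, Real.log_mul (by norm_num) hL0.ne']
    have := Real.log_two_lt_d9
    push_cast
    have e : K * Real.log l = 16 * (F * Real.log l) + 16 * Real.log l := by rw [hK]; ring
    rw [e]
    linarith
  have hlam1 : 1 ≤ lam := by
    rw [hlam, hYr, Real.log_pow, Real.log_mul (by norm_num) hL0.ne']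
    have := Real.log_two_gt_d9
    push_cast
    linarith
  have hlam0 : 0 < lam := by linarith
  set G : ℝ := Real.log (Real.log L + 4) with hG
  have hG1 : 1 ≤ G := by
    rw [hG, Real.le_log_iff_exp_le (by linarith)]
    have := Real.exp_one_lt_d9
    linarith
  have hGle : G ≤ 2 * Real.log (Real.log l) := by
    have h1 : Real.log L + 4 ≤ Real.log l ^ 2 := by nlinarith
    have h2 : Real.log (Real.log L + 4) ≤ Real.log (Real.log l ^ 2) :=
      Real.log_le_log (by linarith) h1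
    rw [Real.log_pow] at h2
    push_cast at h2
    exact h2
  -- the sets
  have hYX : 2 * (Y : ℝ) ≤ X := by
    calc 2 * (Y : ℝ) ≤ 2 * (2 ^ 16 * l ^ (16 * F)) := by gcongr
      _ = 2 ^ 17 * l ^ (16 * F) := by ring
      _ ≤ X := g6
  have hYXn : 2 * Y ≤ X := by exact_mod_cast hYX
  obtain ⟨A, hA1, hA2, hA3⟩ := hA Y hy1Y
  obtain ⟨S1, hS1, hS2, hS3⟩ := hQ (X - Y) (by omega)
  set Q := S1.filter (fun q => Y < q) with hQdef
  have hcastXY : ((X - Y : ℕ) : ℝ) = X - Y := by
    rw [Nat.cast_sub (by omega)]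
  have hQcard : (c2 / 4) * X ≤ Q.card * l ^ (a + 1) := by
    have h1 : S1 ⊆ Q ∪ Icc 1 Y := by
      intro q hq
      rw [mem_union, hQdef, mem_filter, mem_Icc]
      have h2 := (mem_Icc.mp (hS1 hq)).1
      rcases Nat.lt_or_ge Y q with h | h
      · exact Or.inl ⟨hq, h⟩
      · exact Or.inr ⟨by omega, h⟩
    have h2 : (S1.card : ℝ) ≤ Q.card + Y := by
      have h3 := (Finset.card_le_card h1).trans (Finset.card_union_le _ _)
      rw [Nat.card_Icc, Nat.add_sub_cancel] at h3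
      exact_mod_cast h3
    have h3 : Real.log ((X - Y : ℕ) : ℝ) ≤ l := by
      apply Real.log_le_log
      · rw [hcastXY]; linarith
      · rw [hcastXY]; linarith
    have h3' : 0 ≤ Real.log ((X - Y : ℕ) : ℝ) := Real.log_natCast_nonneg _
    have h4 : c2 * ((X - Y : ℕ) : ℝ) ≤ (Q.card + Y) * l ^ (a + 1) := by
      calc c2 * ((X - Y : ℕ) : ℝ) ≤ S1.card * Real.log ((X - Y : ℕ) : ℝ) ^ (a + 1) := hS3
        _ ≤ (Q.card + Y) * l ^ (a + 1) := by gcongr
    have h5 : (Y : ℝ) * l ^ (a + 1) ≤ c2 / 4 * X := by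
      calc (Y : ℝ) * l ^ (a + 1) ≤ (2 ^ 16 * l ^ (16 * F)) * l ^ (a + 1) := by gcongr
        _ = (2 ^ 16 * (4 / c2) * l ^ (16 * F + (a + 1))) * (c2 / 4) := by
            have e : l ^ (16 * F + (a + 1)) = l ^ (16 * F) * l ^ (a + 1) := pow_add _ _ _
            rw [e]
            field_simp
        _ ≤ X * (c2 / 4) := by gcongr
        _ = _ := by ring
    rw [hcastXY] at h4
    have h6 : c2 * (X / 2) ≤ c2 * (X - Y) := by
      apply mul_le_mul_of_nonneg_left _ hc2.le
      linarith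
    rw [add_mul] at h4
    linarith
  have hApos : 0 < (A.card : ℝ) := by
    by_contra hcon
    have h0 : (A.card : ℝ) = 0 := le_antisymm (not_lt.mp hcon) (Nat.cast_nonneg _)
    rw [h0, zero_mul] at hA3
    have : 0 < c1 * Y := by positivity
    linarith
  have hQpos : 0 < (Q.card : ℝ) := by
    by_contra hcon
    have h0 : (Q.card : ℝ) = 0 := le_antisymm (not_lt.mp hcon) (Nat.cast_nonneg _)
    rw [h0, zero_mul] at hQcard
    have : 0 < c2 / 4 * X := by positivity
    linarith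
  -- the pair bound for small primes
  set r : ℝ := C6 * G * Y / lam ^ 2 with hr
  have hr0 : 0 ≤ r := by positivity
  have hrb : ∀ h, 1 ≤ h → h ≤ L →
      (((Ioc 0 Y).filter (fun n => n.Prime ∧ (n + h).Prime)).card : ℝ) ≤ r := by
    intro h hh1 hhL
    have hroot : (Y : ℝ) ^ (1 / 16 : ℝ) = 2 * L := by
      rw [hYr]
      have : (1 / 16 : ℝ) = (((16 : ℕ) : ℝ))⁻¹ := by norm_num
      rw [this, Real.pow_rpow_inv_natCast (by positivity) (by norm_num)]
    have h1 := hps h 0 Y (by omega) hu0Y (by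
      rw [hroot]
      have : (h : ℝ) ≤ L := by exact_mod_cast hhL
      linarith)
    rw [zero_add] at h1
    refine h1.trans ?_
    have h2 := gg_two_mul_le h (by omega)
    have h3 := hgg L h hh1 hhL
    have h4 : gg (2 * h) ≤ 3 / 2 * (C5 * G) := by
      refine h2.trans ?_
      gcongr
    calc C4 * gg (2 * h) * Y / Real.log Y ^ 2 ≤ C4 * (3 / 2 * (C5 * G)) * Y / Real.log Y ^ 2 := by
          gcongr
      _ = r := by rw [hr, hC6, hlam]; ring
  have hTT := hT X L g4 (by
    refine le_trans ?_ hLge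
    exact pow_le_pow_right₀ hl1 (by omega)) hLle
  -- Cauchy-Schwarz
  set Z := A ×ˢ Q with hZ
  set f : ℕ × ℕ → ℕ × ℕ := fun z => (z.1 / L, z.1 + z.2) with hf
  set Sums := Z.image (fun z => z.2 + z.1) with hSums
  have hen1 := energy Z f
  have hen2 := energy_le a X L Y A Q hL1
    (by
      intro p hp
      have h1 := mem_Icc.mp (hA1 hp)
      rw [mem_Ioc]
      exact ⟨by omega, h1.2⟩)
    (fun p hp => PI_prime (hA2 p hp))
    (by
      intro q hq
      have h1 := mem_Icc.mp (hS1 (mem_filter.mp hq).1)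
      rw [mem_range]
      have : 0 < Y := by omega
      omega)
    (fun q hq => hS2 q (mem_filter.mp hq).1) r hrb
  have himg : ((Z.image f).card : ℝ) ≤ (2 * Y / L) * Sums.card := by
    have h1 : Z.image f ⊆ (range (Y / L + 1)) ×ˢ Sums := by
      intro w hw
      obtain ⟨z, hz, rfl⟩ := mem_image.mp hw
      rw [hZ, mem_product] at hz
      rw [mem_product, mem_range]
      refine ⟨?_, ?_⟩
      · simp only [hf]
        exact Nat.lt_succ_of_le (Nat.div_le_div_right (mem_Icc.mp (hA1 hz.1)).2)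
      · simp only [hf, hSums]
        rw [mem_image]
        exact ⟨z, by rw [hZ, mem_product]; exact hz, add_comm _ _⟩
    have h2 : ((Z.image f).card : ℝ) ≤ (((Y / L : ℕ) : ℝ) + 1) * Sums.card := by
      have h3 := Finset.card_le_card h1
      rw [Finset.card_product, Finset.card_range] at h3
      exact_mod_cast h3
    refine h2.trans ?_
    apply mul_le_mul_of_nonneg_right _ (Nat.cast_nonneg _)
    have h3 : ((Y / L : ℕ) : ℝ) ≤ (Y : ℝ) / L := Nat.cast_div_le
    have h4 : 1 ≤ (Y : ℝ) / L := by rw [one_le_div hL0]; exact hLYr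
    have h5 : 2 * (Y : ℝ) / L = Y / L + Y / L := by ring
    linarith
  have hen : ((A.card : ℝ) * Q.card) ^ 2 ≤ (2 * Y / L * Sums.card) *
      ((A.card : ℝ) * Q.card + 2 * (((TT a X L).card : ℝ) * r)) := by
    have h1 : (Z.card : ℝ) = A.card * Q.card := by
      rw [hZ, Finset.card_product]; push_cast; ring
    rw [h1] at hen1
    refine hen1.trans ?_
    exact mul_le_mul himg hen2 (Nat.cast_nonneg _) (by positivity)
  have hfin := finish (a := a) (b := b) (u := (A.card : ℝ) * Q.card) (s := Sums.card)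
    (T := (TT a X L).card) (r := r) (Y := Y) (L := L) (X := X) (lam := lam) (l := l) (G := G)
    (c1 := c1) (c2 := c2 / 4) (C3 := C3) (C6 := C6)
    (by positivity) (Nat.cast_nonneg _) (Nat.cast_nonneg _) hr0 hY0 hL0 hX0 hlam1 hl1 hG1 hc1
    (by positivity) hC3 hC60 hen
    (by
      calc c1 * (c2 / 4) * (Y * X) = (c1 * Y) * (c2 / 4 * X) := by ring
        _ ≤ (A.card * lam ^ (b + 1)) * (Q.card * l ^ (a + 1)) :=
            mul_le_mul hA3 hQcard (by positivity) (by positivity)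
        _ = _ := by ring)
    hTT le_rfl
    (by
      have h1 : lam ^ (b + 1) ≤ l := by
        calc lam ^ (b + 1) ≤ (K * Real.log l) ^ (b + 1) := by gcongr
          _ ≤ l := g1
      calc lam ^ (b + 1) * l ^ (a + 1) ≤ l * l ^ (a + 1) := by gcongr
        _ = l ^ (a + 2) := by ring
        _ ≤ l ^ e0 := pow_le_pow_right₀ hl1 (by omega)
        _ ≤ L := hLge)
  refine ⟨Sums, ?_, ?_⟩
  · intro N hN
    rw [hSums] at hN
    obtain ⟨z, hz, rfl⟩ := mem_image.mp hN
    rw [hZ, mem_product] at hz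
    have h1 := mem_Icc.mp (hA1 hz.1)
    have h2 := mem_filter.mp hz.2
    have h3 := mem_Icc.mp (hS1 h2.1)
    have hp := PI_prime (hA2 _ hz.1)
    have hq := PI_prime (hS2 _ h2.1)
    have hp2 := hp.eq_two_or_odd
    have hq2 := hq.eq_two_or_odd
    refine ⟨by omega, z.1, z.2, by omega, by omega, by omega, hA2 _ hz.1, hS2 _ h2.1, rfl⟩
  · refine le_trans ?_ hfin
    have hll0 : 0 < Real.log l := by linarith
    have hlll0 : 0 < Real.log (Real.log l) := by
      have : 0 < G := by linarith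
      linarith
    have h1 : lam ^ (2 * b) * G ≤ (K * Real.log l) ^ (2 * b) * (2 * Real.log (Real.log l)) := by
      gcongr
    calc cc0 / (K ^ (2 * b) * 2) * X / (Real.log l ^ (2 * b) * Real.log (Real.log l))
        = cc0 * X / ((K * Real.log l) ^ (2 * b) * (2 * Real.log (Real.log l))) := by
          have e : (K * Real.log l) ^ (2 * b) = K ^ (2 * b) * Real.log l ^ (2 * b) :=
            mul_pow _ _ _
          have hKp : 0 < K ^ (2 * b) := by positivity
          have hlp : 0 < Real.log l ^ (2 * b) := by positivity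
          rw [e, div_mul_eq_mul_div, div_div]
          congr 1
          ring
      _ ≤ cc0 * X / (lam ^ (2 * b) * G) := by
          gcongr

end Pool.Agent.TH665.GP
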