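import Pool.Agent.TH665.GP.F2

set_option autoImplicit false

open Finset Filter Topology

namespace Pool.Agent.TH665.GP

open Pool.Agent.H197R2.PG (PI)

/-- the `k`-th prime -/
noncomputable def ff (k : ℕ) : ℕ := Nat.nth Nat.Prime (k - 1)

lemma ff_pi {p : ℕ} (hp : p.Prime) : ff (Nat.primeCounting p) = p := by
  have h1 : Nat.primeCounting p = Nat.count Nat.Prime p + 1 := by
    rw [Nat.primeCounting, Nat.primeCounting', Nat.count_succ, if_pos hp]
  unfold ff
  rw [h1, Nat.add_sub_cancel]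
  exact Nat.nth_count hp

lemma exists_index {a p : ℕ} (h : PI a p) : ∃ u : ℕ, 0 < u ∧ ff^[a + 1] u = p := by
  induction a generalizing p with
  | zero =>
    refine ⟨Nat.primeCounting p, ?_, ?_⟩
    · have h1 : Nat.primeCounting p = Nat.count Nat.Prime p + 1 := by
        rw [Nat.primeCounting, Nat.primeCounting', Nat.count_succ, if_pos (PI_prime h)]
      omega
    · simpa using ff_pi (PI_prime h)
  | succ a ih =>
    obtain ⟨u, hu, hu2⟩ := ih (PI_succ h)
    refine ⟨u, hu, ?_⟩
    rw [Function.iterate_succ_apply', hu2]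
    exact ff_pi (PI_prime h)

theorem main (a b : ℕ) : ∃ c : ℝ, 0 < c ∧ ∀ᶠ x : ℕ in atTop,
    c * x / (Real.log (Real.log x) ^ (2 * b) * Real.log (Real.log (Real.log x))) ≤
      Set.ncard {n : ℕ | n ≤ x ∧ ∃ u v : ℕ, 0 < u ∧ 0 < v ∧
        Nat.iterate (fun k : ℕ => Nat.nth Nat.Prime (k - 1)) (a + 1) u ≠
          Nat.iterate (fun k : ℕ => Nat.nth Nat.Prime (k - 1)) (b + 1) v ∧
        Nat.iterate (fun k : ℕ => Nat.nth Nat.Prime (k - 1)) (a + 1) u +
          Nat.iterate (fun k : ℕ => Nat.nth Nat.Prime (k - 1)) (b + 1) v = 2 * n} := by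
  classical
  obtain ⟨c, hc, hcore⟩ := core a b
  obtain ⟨X0, hX0⟩ := eventually_atTop.mp hcore
  refine ⟨c / 2 ^ (2 * b), by positivity, ?_⟩
  have hll : Tendsto (fun x : ℕ => Real.log (Real.log (x : ℝ))) atTop atTop :=
    Real.tendsto_log_atTop.comp (Real.tendsto_log_atTop.comp tendsto_natCast_atTop_atTop)
  filter_upwards [eventually_ge_atTop X0, eventually_ge_atTop 2, ev_log_ge 2,
    hll.eventually_ge_atTop 2] with x h1 h2 h3 h4
  obtain ⟨S, hS1, hS2⟩ := hX0 (2 * x) (by omega)
  have hx2 : (2 : ℝ) ≤ x := by exact_mod_cast h2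
  have hx0 : (0 : ℝ) < x := by linarith
  set T := S.image (fun N => N / 2) with hT
  have hinj : Set.InjOn (fun N => N / 2) (S : Set ℕ) := by
    intro N hN M hM hNM
    obtain ⟨_, p, q, _, g1, g2, _, _, g3⟩ := hS1 N hN
    obtain ⟨_, p', q', _, g1', g2', _, _, g3'⟩ := hS1 M hM
    simp only at hNM
    omega
  have hTcard : T.card = S.card := Finset.card_image_of_injOn hinj
  set R : Set ℕ := {n : ℕ | n ≤ x ∧ ∃ u v : ℕ, 0 < u ∧ 0 < v ∧
        Nat.iterate (fun k : ℕ => Nat.nth Nat.Prime (k - 1)) (a + 1) u ≠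
          Nat.iterate (fun k : ℕ => Nat.nth Nat.Prime (k - 1)) (b + 1) v ∧
        Nat.iterate (fun k : ℕ => Nat.nth Nat.Prime (k - 1)) (a + 1) u +
          Nat.iterate (fun k : ℕ => Nat.nth Nat.Prime (k - 1)) (b + 1) v = 2 * n} with hR
  have hfin : R.Finite := (Set.finite_Iic x).subset (fun n hn => hn.1)
  have hsub : (T : Set ℕ) ⊆ R := by
    intro n hn
    rw [Finset.mem_coe, hT, mem_image] at hn
    obtain ⟨N, hN, rfl⟩ := hn
    obtain ⟨g0, p, q, g, g1, g2, g4, g5, g3⟩ := hS1 N hN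
    obtain ⟨v, hv, hv2⟩ := exists_index g4
    obtain ⟨u, hu, hu2⟩ := exists_index g5
    refine ⟨by omega, u, v, hu, hv, ?_, ?_⟩
    · change ff^[a + 1] u ≠ ff^[b + 1] v
      rw [hu2, hv2]
      omega
    · change ff^[a + 1] u + ff^[b + 1] v = 2 * (N / 2)
      rw [hu2, hv2]
      omega
  have h5 := Set.ncard_le_ncard hsub hfin
  rw [Set.ncard_coe_finset, hTcard] at h5
  have h6 : (S.card : ℝ) ≤ Set.ncard R := by exact_mod_cast h5
  refine le_trans ?_ h6
  refine le_trans ?_ hS2
  -- comparison of the iterated logarithms of `x` and `2 x`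
  push_cast
  have hl2 := Real.log_two_lt_d9
  have hlx : Real.log (2 * (x : ℝ)) = Real.log 2 + Real.log x :=
    Real.log_mul (by norm_num) hx0.ne'
  have hl20 : 0 < Real.log 2 := Real.log_pos (by norm_num)
  have k1 : Real.log (2 * (x : ℝ)) ≤ Real.log x ^ 2 := by
    rw [hlx]; nlinarith
  have k1' : Real.log x ≤ Real.log (2 * (x : ℝ)) := by rw [hlx]; linarith
  have k2 : Real.log (Real.log (2 * (x : ℝ))) ≤ 2 * Real.log (Real.log x) := by
    have := Real.log_le_log (by linarith : 0 < Real.log (2 * (x : ℝ))) k1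
    rw [Real.log_pow] at this
    push_cast at this
    exact this
  have k2' : Real.log (Real.log x) ≤ Real.log (Real.log (2 * (x : ℝ))) :=
    Real.log_le_log (by linarith) k1'
  have k3 : Real.log (Real.log (Real.log (2 * (x : ℝ)))) ≤
      2 * Real.log (Real.log (Real.log x)) := by
    have h7 : 2 * Real.log (Real.log (x : ℝ)) ≤ Real.log (Real.log x) ^ 2 := by nlinarith
    have := Real.log_le_log (by linarith : 0 < Real.log (Real.log (2 * (x : ℝ)))) (k2.trans h7)
    rw [Real.log_pow] at this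
    push_cast at this
    exact this
  have k3' : 0 < Real.log (Real.log (Real.log (x : ℝ))) := Real.log_pos (by linarith)
  have k3'' : 0 < Real.log (Real.log (Real.log (2 * (x : ℝ)))) := Real.log_pos (by linarith)
  have k4 : 0 < Real.log (Real.log (2 * (x : ℝ))) := by linarith
  have k5 : Real.log (Real.log (2 * (x : ℝ))) ^ (2 * b) *
      Real.log (Real.log (Real.log (2 * (x : ℝ)))) ≤
      (2 * Real.log (Real.log x)) ^ (2 * b) * (2 * Real.log (Real.log (Real.log x))) := by
    gcongr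
  have k6 : 0 < Real.log (Real.log (x : ℝ)) := by linarith
  calc c / 2 ^ (2 * b) * x / (Real.log (Real.log x) ^ (2 * b) * Real.log (Real.log (Real.log x)))
      = c * (2 * x) / ((2 * Real.log (Real.log x)) ^ (2 * b) *
        (2 * Real.log (Real.log (Real.log x)))) := by
        rw [mul_pow]
        field_simp
    _ ≤ c * (2 * x) / (Real.log (Real.log (2 * (x : ℝ))) ^ (2 * b) *
      Real.log (Real.log (Real.log (2 * (x : ℝ))))) := by
        gcongr

end Pool.Agent.TH665.GP
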