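import Pool.Agent.TH665.GP.V4
import Pool.Agent.H197R2.PG7

set_option autoImplicit false

/-!
Pairs of iterated primes at small distance, on average over the distance.
-/

open Finset Filter Topology

namespace Pool.Agent.TH665.GP

open Pool.Agent.H197R2.PG (gg one_le_gg pair_sieve_sharp moment_le euler_le gg_two_mul_le PI QQ
  QQ_card)

/-- pairs `q < q' ≤ q + L`, `q < x`, of `a`-fold iterated primes -/
noncomputable def TT (a x L : ℕ) : Finset (ℕ × ℕ) := by
  classical
  exact ((range x) ×ˢ (range (x + L))).filter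
    (fun z => z.1 < z.2 ∧ z.2 ≤ z.1 + L ∧ PI a z.1 ∧ PI a z.2)

lemma mem_TT {a x L : ℕ} {z : ℕ × ℕ} : z ∈ TT a x L ↔
    z.1 < x ∧ z.1 < z.2 ∧ z.2 ≤ z.1 + L ∧ PI a z.1 ∧ PI a z.2 := by
  classical
  unfold TT
  rw [mem_filter, mem_product, mem_range, mem_range]
  constructor
  · rintro ⟨⟨h1, _⟩, h2⟩
    exact ⟨h1, h2⟩
  · rintro ⟨h1, h2, h3, h4⟩
    exact ⟨⟨h1, by omega⟩, h2, h3, h4⟩

lemma PI_prime {a p : ℕ} (h : PI a p) : p.Prime := h 0 (Nat.zero_le _)

lemma PI_succ {a p : ℕ} (h : PI (a + 1) p) : PI a (Nat.primeCounting p) := by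
  intro j hj
  have := h (j + 1) (by omega)
  rwa [Function.iterate_succ_apply] at this

lemma gg_sum : ∃ C : ℝ, 1 ≤ C ∧ ∀ Y : ℕ, ∑ h ∈ Icc 1 Y, gg h ≤ C * Y := by
  obtain ⟨C, hC, hE⟩ := euler_le
  have hl3 : (1 : ℝ) ≤ Real.log 3 := by
    rw [Real.le_log_iff_exp_le (by norm_num)]
    have := Real.exp_one_lt_d9
    linarith
  have hCl : 1 ≤ C * Real.log (3 : ℕ) := by
    push_cast
    nlinarith
  refine ⟨(C * Real.log (3 : ℕ)) ^ 3, one_le_pow₀ hCl, ?_⟩
  intro Y
  have h1 := moment_le 3 Y
  have h2 := hE 3 Y le_rfl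
  calc ∑ h ∈ Icc 1 Y, gg h ≤ ∑ h ∈ Icc 1 Y, gg h ^ 3 := by
        apply Finset.sum_le_sum
        intro h _
        have h3 := one_le_gg h
        calc gg h = gg h ^ 1 := (pow_one _).symm
          _ ≤ gg h ^ 3 := pow_le_pow_right₀ h3 (by norm_num)
    _ ≤ Y * ∏ p ∈ Pool.Agent.H197R2.PG.PY Y, (1 + Pool.Agent.H197R2.PG.wt 3 p / p) := h1
    _ ≤ Y * (C * Real.log (3 : ℕ)) ^ 3 := by gcongr
    _ = _ := by ring

lemma TT_zero : ∃ C : ℝ, 0 < C ∧ ∃ x0 : ℕ, ∀ x L : ℕ, x0 ≤ x →
    2 * (L : ℝ) ≤ (x : ℝ) ^ (1 / 16 : ℝ) →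
    ((TT 0 x L).card : ℝ) ≤ C * L * x / Real.log x ^ 2 := by
  classical
  obtain ⟨C1, hC1, u0, hps⟩ := pair_sieve_sharp
  obtain ⟨C2, hC2, hgg⟩ := gg_sum
  refine ⟨C1 * (3 / 2) * C2, by positivity, u0, ?_⟩
  intro x L hx hL
  have h1 : (TT 0 x L).card ≤ ((Icc 1 L ×ˢ Ioc 0 (0 + x)).filter
      (fun z => z.2.Prime ∧ (z.2 + z.1).Prime)).card := by
    apply Finset.card_le_card_of_injOn (fun z => (z.2 - z.1, z.1))
    · intro z hz
      rw [Finset.mem_coe, mem_TT] at hz
      obtain ⟨g1, g2, g3, g4, g5⟩ := hz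
      rw [Finset.mem_coe, mem_filter, mem_product, mem_Icc, mem_Ioc]
      have g6 := (PI_prime g4).pos
      refine ⟨⟨⟨by simp only; omega, by simp only; omega⟩, by simp only; omega,
        by simp only; omega⟩, PI_prime g4, ?_⟩
      have : z.1 + (z.2 - z.1) = z.2 := by omega
      simp only
      rw [this]
      exact PI_prime g5
    · intro z hz w hw hzw
      rw [Finset.mem_coe, mem_TT] at hz hw
      simp only [Prod.mk.injEq] at hzw
      exact Prod.ext hzw.2 (by omega)
  have h2 : ((Icc 1 L ×ˢ Ioc 0 (0 + x)).filter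
      (fun z => z.2.Prime ∧ (z.2 + z.1).Prime)).card =
      ∑ h ∈ Icc 1 L, ((Ioc 0 (0 + x)).filter (fun n => n.Prime ∧ (n + h).Prime)).card := by
    rw [Finset.card_filter, Finset.sum_product]
    apply Finset.sum_congr rfl
    intro h _
    rw [Finset.card_filter]
  have h3 : ((TT 0 x L).card : ℝ) ≤
      ∑ h ∈ Icc 1 L, (((Ioc 0 (0 + x)).filter (fun n => n.Prime ∧ (n + h).Prime)).card : ℝ) := by
    rw [h2] at h1
    exact_mod_cast h1
  refine h3.trans ?_
  calc ∑ h ∈ Icc 1 L, (((Ioc 0 (0 + x)).filter (fun n => n.Prime ∧ (n + h).Prime)).card : ℝ)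
      ≤ ∑ h ∈ Icc 1 L, C1 * (3 / 2) * gg h * (x / Real.log x ^ 2) := by
        apply Finset.sum_le_sum
        intro h hh
        rw [mem_Icc] at hh
        have hh2 : 2 * (h : ℝ) ≤ (x : ℝ) ^ (1 / 16 : ℝ) := by
          have : (h : ℝ) ≤ L := by exact_mod_cast hh.2
          linarith
        refine (hps h 0 x (by omega) hx hh2).trans ?_
        have h5 := gg_two_mul_le h (by omega)
        calc C1 * gg (2 * h) * x / Real.log x ^ 2 = C1 * gg (2 * h) * (x / Real.log x ^ 2) := by ring
          _ ≤ C1 * (3 / 2 * gg h) * (x / Real.log x ^ 2) := by gcongr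
          _ = _ := by ring
    _ = C1 * (3 / 2) * (x / Real.log x ^ 2) * ∑ h ∈ Icc 1 L, gg h := by
        rw [Finset.mul_sum]
        apply Finset.sum_congr rfl
        intro h _
        ring
    _ ≤ C1 * (3 / 2) * (x / Real.log x ^ 2) * (C2 * L) := by
        gcongr
        exact hgg L
    _ = _ := by ring

lemma primeCounting_add (q L : ℕ) :
    Nat.primeCounting (q + L) = Nat.primeCounting q + pc L q := by
  rw [Nat.primeCounting, Nat.primeCounting, Nat.primeCounting', show q + L + 1 = q + 1 + L by ring,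
    Nat.count_add]
  congr 1
  rw [Nat.count_eq_card_filter_range]
  unfold pc
  apply Finset.card_bij (fun k _ => k + 1)
  · intro k hk
    rw [mem_filter, mem_range] at hk
    rw [mem_filter, mem_Icc]
    refine ⟨by omega, ?_⟩
    rw [show q + (k + 1) = q + 1 + k by ring]
    exact hk.2
  · intro a _ b _ hab
    omega
  · intro m hm
    rw [mem_filter, mem_Icc] at hm
    refine ⟨m - 1, ?_, by omega⟩
    rw [mem_filter, mem_range]
    refine ⟨by omega, ?_⟩
    rw [show q + 1 + (m - 1) = q + m by omega]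
    exact hm.2

lemma pi_inj {p q : ℕ} (hp : p.Prime) (hq : q.Prime)
    (h : Nat.primeCounting p = Nat.primeCounting q) : p = q := by
  rcases lt_trichotomy p q with hlt | heq | hgt
  · exfalso
    have h1 := primeCounting_add p (q - p)
    rw [show p + (q - p) = q by omega] at h1
    have h2 : 0 < pc (q - p) p := by
      unfold pc
      rw [Finset.card_pos]
      refine ⟨q - p, ?_⟩
      rw [mem_filter, mem_Icc]
      refine ⟨by omega, ?_⟩
      rw [show p + (q - p) = q by omega]
      exact hq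
    omega
  · exact heq
  · exfalso
    have h1 := primeCounting_add q (p - q)
    rw [show q + (p - q) = p by omega] at h1
    have h2 : 0 < pc (p - q) q := by
      unfold pc
      rw [Finset.card_pos]
      refine ⟨p - q, ?_⟩
      rw [mem_filter, mem_Icc]
      refine ⟨by omega, ?_⟩
      rw [show q + (p - q) = p by omega]
      exact hp
    omega

lemma pi_lt {p q : ℕ} (hq : q.Prime) (h : p < q) :
    Nat.primeCounting p < Nat.primeCounting q := by
  have h1 := primeCounting_add p (q - p)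
  rw [show p + (q - p) = q by omega] at h1
  have h2 : 0 < pc (q - p) p := by
    unfold pc
    rw [Finset.card_pos]
    refine ⟨q - p, ?_⟩
    rw [mem_filter, mem_Icc]
    refine ⟨by omega, ?_⟩
    rw [show p + (q - p) = q by omega]
    exact hq
  omega

/-- one step of the induction, combinatorial part -/
lemma TT_step (a x L J : ℕ) :
    (TT (a + 1) x L).card ≤ (TT a (Nat.primeCounting x + 1) J).card +
      ((range x).filter (fun n => J < pc L n)).card * L := by
  classical
  set Bad := (range x).filter (fun n => J < pc L n) with hBad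
  have h1 : TT (a + 1) x L ⊆ (TT (a + 1) x L).filter (fun z => pc L z.1 ≤ J) ∪
      (TT (a + 1) x L).filter (fun z => J < pc L z.1) := by
    intro z hz
    rw [mem_union, mem_filter, mem_filter]
    rcases Nat.lt_or_ge J (pc L z.1) with h | h
    · exact Or.inr ⟨hz, h⟩
    · exact Or.inl ⟨hz, h⟩
  refine (Finset.card_le_card h1).trans ((Finset.card_union_le _ _).trans (Nat.add_le_add ?_ ?_))
  · apply Finset.card_le_card_of_injOn
      (fun z => (Nat.primeCounting z.1, Nat.primeCounting z.2))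
    · intro z hz
      rw [Finset.mem_coe, mem_filter, mem_TT] at hz
      obtain ⟨⟨g1, g2, g3, g4, g5⟩, g6⟩ := hz
      rw [Finset.mem_coe, mem_TT]
      refine ⟨?_, pi_lt (PI_prime g5) g2, ?_, PI_succ g4, PI_succ g5⟩
      · simp only
        exact Nat.lt_succ_of_le (Nat.monotone_primeCounting g1.le)
      · simp only
        have h2 := Nat.monotone_primeCounting g3
        rw [primeCounting_add] at h2
        omega
    · intro z hz w hw hzw
      rw [Finset.mem_coe, mem_filter, mem_TT] at hz hw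
      simp only [Prod.mk.injEq] at hzw
      exact Prod.ext (pi_inj (PI_prime hz.1.2.2.2.1) (PI_prime hw.1.2.2.2.1) hzw.1)
        (pi_inj (PI_prime hz.1.2.2.2.2) (PI_prime hw.1.2.2.2.2) hzw.2)
  · calc ((TT (a + 1) x L).filter (fun z => J < pc L z.1)).card
        ≤ (Bad ×ˢ Icc 1 L).card := by
          apply Finset.card_le_card_of_injOn (fun z => (z.1, z.2 - z.1))
          · intro z hz
            rw [Finset.mem_coe, mem_filter, mem_TT] at hz
            obtain ⟨⟨g1, g2, g3, g4, g5⟩, g6⟩ := hz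
            rw [Finset.mem_coe, mem_product, hBad, mem_filter, mem_range, mem_Icc]
            exact ⟨⟨g1, g6⟩, by simp only; omega, by simp only; omega⟩
          · intro z hz w hw hzw
            rw [Finset.mem_coe, mem_filter, mem_TT] at hz hw
            simp only [Prod.mk.injEq] at hzw
            exact Prod.ext hzw.1 (by omega)
      _ = Bad.card * L := by rw [Finset.card_product, Nat.card_Icc]; simp

end Pool.Agent.TH665.GP
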