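import Pool.Agent.W23.UBa
import Pool.Agent.Helper601.BT

set_option autoImplicit false

/-!
A nonnegative majorant of the primes (Selberg weights with level a small power) with explicit
divisor-sum shape.
-/

open Finset Nat ArithmeticFunction BoundingSieve
open scoped ArithmeticFunction.Moebius

namespace Pool.Agent.TH665.GP

open Pool.Agent.Helper601 (apSieve PP PP_squarefree prime_dvd_PP selS_ge_log invAF_apply)

/-- the weights of the majorant -/
noncomputable def rho (R d : ℕ) : ℝ :=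
  lambdaSquared (Pool.Agent.Helper923.PPS.selW (apSieve 0 1 0 R) (R : ℝ)) d

lemma rho_abs {R d : ℕ} (hR : 1 ≤ R) (hd : d ∣ PP 1 R) :
    |rho R d| ≤ if d ≤ R ^ 2 then (3 : ℝ) ^ d.primeFactors.card else 0 := by
  have h1 := Pool.Agent.W23.UB.abs_lambda_le (apSieve 0 1 0 R) (R : ℝ) (by exact_mod_cast hR)
    (d := d) hd
  unfold rho
  refine h1.trans (le_of_eq ?_)
  have : ((d : ℝ) ≤ (R : ℝ) ^ 2) ↔ d ≤ R ^ 2 := by
    rw [← Nat.cast_pow, Nat.cast_le]
  simp only [this]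

lemma rho_mean {R : ℕ} (hR : 1 ≤ R) :
    0 ≤ ∑ d ∈ (PP 1 R).divisors, rho R d / d ∧
      ∑ d ∈ (PP 1 R).divisors, rho R d / d ≤ 4 / Real.log ((R : ℝ) + 1) := by
  have h1 := Pool.Agent.Helper923.PPS.mainSum_selW (apSieve 0 1 0 R) (R : ℝ) (by exact_mod_cast hR)
  have h2 : mainSum (s := apSieve 0 1 0 R)
      (lambdaSquared (Pool.Agent.Helper923.PPS.selW (apSieve 0 1 0 R) (R : ℝ))) =
      ∑ d ∈ (PP 1 R).divisors, rho R d / d := by
    unfold mainSum rho
    apply Finset.sum_congr rfl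
    intro d _
    change _ * ((d : ℝ))⁻¹ = _
    rw [div_eq_mul_inv]
  rw [h2] at h1
  have h3 : Real.log ((R : ℝ) + 1) / 4 ≤
      Pool.Agent.Helper923.PPS.selS (apSieve 0 1 0 R) (R : ℝ) :=
    selS_ge_log (a := 0) (q := 1) (N := 0) (R := R) (Or.inl rfl)
  have h4 : 0 < Real.log ((R : ℝ) + 1) := by
    apply Real.log_pos
    have : (1 : ℝ) ≤ R := by exact_mod_cast hR
    linarith
  rw [h1]
  constructor
  · apply inv_nonneg.mpr
    linarith [div_pos h4 (by norm_num : (0 : ℝ) < 4)]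
  · rw [inv_le_comm₀ (by linarith [div_pos h4 (by norm_num : (0 : ℝ) < 4)]) (by positivity)]
    rw [inv_div]
    exact h3

/-- the majorant -/
noncomputable def ww (R n : ℕ) : ℝ := ∑ d ∈ (PP 1 R).divisors.filter (fun d => d ∣ n), rho R d

lemma ww_eq {R n : ℕ} (_hn : n ≠ 0) : ww R n = ∑ d ∈ (Nat.gcd (PP 1 R) n).divisors, rho R d := by
  unfold ww
  congr 1
  ext d
  have hP : PP 1 R ≠ 0 := (PP_squarefree 1 R).ne_zero
  simp only [mem_filter, Nat.mem_divisors, ne_eq, Nat.gcd_eq_zero_iff, hP, false_and,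
    not_false_eq_true, and_true]
  exact ⟨fun h => Nat.dvd_gcd h.1 h.2, fun h => ⟨h.trans (Nat.gcd_dvd_left _ _),
    h.trans (Nat.gcd_dvd_right _ _)⟩⟩

lemma ww_ge {R n : ℕ} (hR : 1 ≤ R) (hn : n ≠ 0) :
    (if Nat.gcd (PP 1 R) n = 1 then (1 : ℝ) else 0) ≤ ww R n := by
  rw [ww_eq hn]
  exact upperMoebius_lambdaSquared _ (Pool.Agent.Helper923.PPS.selW_one (apSieve 0 1 0 R) (R : ℝ)
    (by exact_mod_cast hR)) _

lemma ww_nonneg {R n : ℕ} (hR : 1 ≤ R) (hn : n ≠ 0) : 0 ≤ ww R n := by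
  refine le_trans ?_ (ww_ge hR hn)
  split_ifs <;> norm_num

lemma ww_prime {R p : ℕ} (hR : 1 ≤ R) (hp : p.Prime) (hpR : R < p) : 1 ≤ ww R p := by
  have h1 := ww_ge (n := p) hR hp.ne_zero
  rw [if_pos] at h1
  · exact h1
  · rw [← Nat.coprime_iff_gcd_eq_one, Nat.coprime_comm, Nat.Prime.coprime_iff_not_dvd hp]
    intro h
    have := (prime_dvd_PP hp).mp h
    omega

end Pool.Agent.TH665.GP
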