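import Pool.Agent.TH665.GP.V1

set_option autoImplicit false

/-!
Covariance of the counting functions of multiples in short windows, and the variance of
divisor sums over short windows.
-/

open Finset

namespace Pool.Agent.TH665.GP

open Pool.Agent.Helper601 (count_dvd_AP)

/-- number of `m` in `[1, L]` with `d ∣ n + m` -/
noncomputable def cc (L d n : ℕ) : ℝ := (((Icc 1 L).filter (fun m => d ∣ n + m)).card : ℝ)

lemma count_shift {d X m : ℕ} (hd : 0 < d) :
    |((((range X).filter (fun n => d ∣ n + m)).card : ℕ) : ℝ) - (X : ℝ) / d| ≤ 1 := by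
  have h := count_dvd_AP (a := m) (q := 1) (d := d) (N := X) hd (Nat.coprime_one_right d)
  have e : (range X).filter (fun n => d ∣ n + m) = (range X).filter (fun k => d ∣ m + k * 1) := by
    apply Finset.filter_congr
    intro n _
    rw [mul_one, add_comm]
  rw [e]
  exact h

lemma count_mod {g L m : ℕ} (hg : 0 < g) :
    |((((Icc 1 L).filter (fun m' => m ≡ m' [MOD g])).card : ℕ) : ℝ) - (L : ℝ) / g| ≤ 1 := by
  have h := count_dvd_AP (a := 1 + m * (g - 1)) (q := 1) (d := g) (N := L) hg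
    (Nat.coprime_one_right g)
  have e : ((Icc 1 L).filter (fun m' => m ≡ m' [MOD g])).card =
      ((range L).filter (fun k => g ∣ (1 + m * (g - 1)) + k * 1)).card := by
    symm
    apply Finset.card_bij (fun k _ => k + 1)
    · intro k hk
      rw [mem_filter, mem_range] at hk
      rw [mem_filter, mem_Icc]
      refine ⟨⟨by omega, by omega⟩, ?_⟩
      have h1 : g ∣ (k + 1) + m * (g - 1) := by
        have := hk.2
        rw [mul_one] at this
        rw [show (k + 1) + m * (g - 1) = 1 + m * (g - 1) + k by ring]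
        exact this
      have h2 : m + m * (g - 1) = m * g := by
        obtain ⟨g', rfl⟩ : ∃ g', g = g' + 1 := ⟨g - 1, by omega⟩
        simp only [Nat.add_sub_cancel]; ring
      have h3 : (k + 1) + m * (g - 1) ≡ m + m * (g - 1) [MOD g] := by
        rw [h2]
        exact ((Nat.modEq_zero_iff_dvd).mpr h1).trans
          ((Nat.modEq_zero_iff_dvd).mpr (Dvd.intro_left m rfl)).symm
      exact (Nat.ModEq.add_right_cancel' _ h3).symm
    · intro a _ b _ hab
      omega
    · intro m' hm'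
      rw [mem_filter, mem_Icc] at hm'
      refine ⟨m' - 1, ?_, by omega⟩
      rw [mem_filter, mem_range]
      refine ⟨by omega, ?_⟩
      have h2 : m + m * (g - 1) = m * g := by
        obtain ⟨g', rfl⟩ : ∃ g', g = g' + 1 := ⟨g - 1, by omega⟩
        simp only [Nat.add_sub_cancel]; ring
      have h3 : m + m * (g - 1) ≡ m' + m * (g - 1) [MOD g] := Nat.ModEq.add_right _ hm'.2
      rw [h2] at h3
      have h4 : g ∣ m' + m * (g - 1) := by
        rw [← Nat.modEq_zero_iff_dvd]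
        exact h3.symm.trans ((Nat.modEq_zero_iff_dvd).mpr (Dvd.intro_left m rfl))
      have e5 : 1 + m * (g - 1) + (m' - 1) * 1 = m' + m * (g - 1) := by omega
      rw [e5]
      exact h4
  rw [e]
  exact h

/-- joint congruences -/
lemma count_joint {d e X m m' : ℕ} (hd : 0 < d) (he : 0 < e) :
    |((((range X).filter (fun n => d ∣ n + m ∧ e ∣ n + m')).card : ℕ) : ℝ) -
      (if m ≡ m' [MOD Nat.gcd d e] then (X : ℝ) / Nat.lcm d e else 0)| ≤ 1 := by
  by_cases h : m ≡ m' [MOD Nat.gcd d e]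
  · rw [if_pos h]
    obtain ⟨a, ha1, ha2⟩ := Nat.chineseRemainder' h
    have hiff : ∀ n, (d ∣ n + m ∧ e ∣ n + m') ↔ Nat.lcm d e ∣ n + a := by
      intro n
      have h1 : (d ∣ n + m) ↔ d ∣ n + a := by
        rw [← Nat.modEq_zero_iff_dvd, ← Nat.modEq_zero_iff_dvd]
        exact ⟨fun h => (Nat.ModEq.add_left n ha1).trans h,
          fun h => (Nat.ModEq.add_left n ha1.symm).trans h⟩
      have h2 : (e ∣ n + m') ↔ e ∣ n + a := by
        rw [← Nat.modEq_zero_iff_dvd, ← Nat.modEq_zero_iff_dvd]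
        exact ⟨fun h => (Nat.ModEq.add_left n ha2).trans h,
          fun h => (Nat.ModEq.add_left n ha2.symm).trans h⟩
      rw [h1, h2]
      exact (Nat.lcm_dvd_iff).symm
    have e1 : (range X).filter (fun n => d ∣ n + m ∧ e ∣ n + m') =
        (range X).filter (fun n => Nat.lcm d e ∣ n + a) :=
      Finset.filter_congr (fun n _ => hiff n)
    rw [e1]
    exact count_shift (Nat.lcm_pos hd he)
  · rw [if_neg h]
    have e1 : (range X).filter (fun n => d ∣ n + m ∧ e ∣ n + m') = ∅ := by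
      rw [Finset.filter_eq_empty_iff]
      intro n _ hn
      apply h
      have h1 : n + m ≡ 0 [MOD Nat.gcd d e] :=
        (Nat.modEq_zero_iff_dvd).mpr ((Nat.gcd_dvd_left d e).trans hn.1)
      have h2 : n + m' ≡ 0 [MOD Nat.gcd d e] :=
        (Nat.modEq_zero_iff_dvd).mpr ((Nat.gcd_dvd_right d e).trans hn.2)
      exact Nat.ModEq.add_left_cancel' n (h1.trans h2.symm)
    rw [e1]
    simp

lemma cc_eq (L d n : ℕ) : cc L d n = ∑ m ∈ Icc 1 L, if d ∣ n + m then (1 : ℝ) else 0 := by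
  unfold cc
  rw [Finset.card_filter]
  push_cast
  rfl

lemma sum_cc {L d X : ℕ} (hd : 0 < d) :
    |∑ n ∈ range X, cc L d n - (L : ℝ) * X / d| ≤ L := by
  have h1 : ∑ n ∈ range X, cc L d n =
      ∑ m ∈ Icc 1 L, ((((range X).filter (fun n => d ∣ n + m)).card : ℕ) : ℝ) := by
    simp only [cc_eq]
    rw [Finset.sum_comm]
    apply Finset.sum_congr rfl
    intro m _
    rw [Finset.card_filter]
    push_cast
    rfl
  have h2 : (L : ℝ) * X / d = ∑ m ∈ Icc 1 L, (X : ℝ) / d := by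
    rw [Finset.sum_const, Nat.card_Icc, nsmul_eq_mul]
    simp only [Nat.add_sub_cancel]
    ring
  rw [h1, h2, ← Finset.sum_sub_distrib]
  refine (Finset.abs_sum_le_sum_abs _ _).trans ?_
  calc ∑ m ∈ Icc 1 L, |((((range X).filter (fun n => d ∣ n + m)).card : ℕ) : ℝ) - (X : ℝ) / d|
      ≤ ∑ m ∈ Icc 1 L, (1 : ℝ) := Finset.sum_le_sum (fun m _ => count_shift hd)
    _ = L := by rw [Finset.sum_const, Nat.card_Icc, nsmul_eq_mul]; simp

lemma sum_cc_cc {L d e X : ℕ} (hd : 0 < d) (he : 0 < e) :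
    |∑ n ∈ range X, cc L d n * cc L e n -
      (((Icc 1 L ×ˢ Icc 1 L).filter (fun z => z.1 ≡ z.2 [MOD Nat.gcd d e])).card : ℝ) *
        (X / Nat.lcm d e)| ≤ (L : ℝ) * L := by
  have h1 : ∑ n ∈ range X, cc L d n * cc L e n =
      ∑ z ∈ Icc 1 L ×ˢ Icc 1 L,
        ((((range X).filter (fun n => d ∣ n + z.1 ∧ e ∣ n + z.2)).card : ℕ) : ℝ) := by
    have : ∀ n ∈ range X, cc L d n * cc L e n =
        ∑ z ∈ Icc 1 L ×ˢ Icc 1 L, if (d ∣ n + z.1 ∧ e ∣ n + z.2) then (1 : ℝ) else 0 := by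
      intro n _
      rw [cc_eq, cc_eq, Finset.sum_mul_sum, Finset.sum_product]
      apply Finset.sum_congr rfl
      intro m _
      apply Finset.sum_congr rfl
      intro m' _
      by_cases ha : d ∣ n + m <;> by_cases hb : e ∣ n + m' <;> simp [ha, hb]
    rw [Finset.sum_congr rfl this, Finset.sum_comm]
    apply Finset.sum_congr rfl
    intro z _
    rw [Finset.card_filter]
    push_cast
    rfl
  have h2 : (((Icc 1 L ×ˢ Icc 1 L).filter (fun z => z.1 ≡ z.2 [MOD Nat.gcd d e])).card : ℝ) *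
        (X / Nat.lcm d e) = ∑ z ∈ Icc 1 L ×ˢ Icc 1 L,
          (if z.1 ≡ z.2 [MOD Nat.gcd d e] then (X : ℝ) / Nat.lcm d e else 0) := by
    rw [← Finset.sum_filter, Finset.sum_const, nsmul_eq_mul]
  rw [h1, h2, ← Finset.sum_sub_distrib]
  refine (Finset.abs_sum_le_sum_abs _ _).trans ?_
  calc _ ≤ ∑ z ∈ Icc 1 L ×ˢ Icc 1 L, (1 : ℝ) :=
        Finset.sum_le_sum (fun z _ => count_joint hd he)
    _ = (L : ℝ) * L := by
        rw [Finset.sum_const, Finset.card_product, Nat.card_Icc, nsmul_eq_mul]; simp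

lemma Ng_bound {L g : ℕ} (hg : 0 < g) :
    |(g : ℝ) * (((Icc 1 L ×ˢ Icc 1 L).filter (fun z => z.1 ≡ z.2 [MOD g])).card : ℝ) -
      (L : ℝ) ^ 2| ≤ g * L := by
  have hg0 : (0 : ℝ) < g := by exact_mod_cast hg
  have h1 : (((Icc 1 L ×ˢ Icc 1 L).filter (fun z => z.1 ≡ z.2 [MOD g])).card : ℝ) =
      ∑ m ∈ Icc 1 L, ((((Icc 1 L).filter (fun m' => m ≡ m' [MOD g])).card : ℕ) : ℝ) := by
    rw [Finset.card_filter]
    push_cast
    rw [Finset.sum_product]
    apply Finset.sum_congr rfl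
    intro m _
    rw [Finset.card_filter]
    push_cast
    rfl
  have h2 : (L : ℝ) ^ 2 = g * ∑ m ∈ Icc 1 L, (L : ℝ) / g := by
    rw [Finset.sum_const, Nat.card_Icc, nsmul_eq_mul]
    simp only [Nat.add_sub_cancel]
    field_simp
  rw [h1, h2, ← mul_sub, ← Finset.sum_sub_distrib, abs_mul, abs_of_pos hg0]
  apply mul_le_mul_of_nonneg_left _ hg0.le
  refine (Finset.abs_sum_le_sum_abs _ _).trans ?_
  calc _ ≤ ∑ m ∈ Icc 1 L, (1 : ℝ) := Finset.sum_le_sum (fun m _ => count_mod hg)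
    _ = L := by rw [Finset.sum_const, Nat.card_Icc, nsmul_eq_mul]; simp

/-- covariance -/
lemma cov {L d e X : ℕ} (hd : 0 < d) (he : 0 < e) :
    |∑ n ∈ range X, (cc L d n - (L : ℝ) / d) * (cc L e n - (L : ℝ) / e)| ≤
      X * L * ((Nat.gcd d e : ℝ) / (d * e)) + 3 * (L : ℝ) ^ 2 := by
  have hd0 : (0 : ℝ) < d := by exact_mod_cast hd
  have he0 : (0 : ℝ) < e := by exact_mod_cast he
  have hd1 : (1 : ℝ) ≤ d := by exact_mod_cast hd
  have he1 : (1 : ℝ) ≤ e := by exact_mod_cast he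
  have hg : 0 < Nat.gcd d e := Nat.gcd_pos_of_pos_left _ hd
  have hg0 : (0 : ℝ) < Nat.gcd d e := by exact_mod_cast hg
  set g : ℕ := Nat.gcd d e with hgdef
  set N : ℝ := (((Icc 1 L ×ˢ Icc 1 L).filter (fun z => z.1 ≡ z.2 [MOD g])).card : ℝ) with hN
  have hlcm : (Nat.lcm d e : ℝ) = d * e / g := by
    have : (Nat.gcd d e : ℝ) * Nat.lcm d e = d * e := by exact_mod_cast Nat.gcd_mul_lcm d e
    rw [eq_div_iff hg0.ne', mul_comm]
    exact this
  set E1 : ℝ := ∑ n ∈ range X, cc L d n * cc L e n - N * (X / Nat.lcm d e) with hE1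
  set E2 : ℝ := ∑ n ∈ range X, cc L d n - (L : ℝ) * X / d with hE2
  set E3 : ℝ := ∑ n ∈ range X, cc L e n - (L : ℝ) * X / e with hE3
  have b1 : |E1| ≤ (L : ℝ) * L := sum_cc_cc hd he
  have b2 : |E2| ≤ L := sum_cc hd
  have b3 : |E3| ≤ L := sum_cc he
  have b4 := Ng_bound (L := L) hg
  rw [← hN] at b4
  have hexp : ∑ n ∈ range X, (cc L d n - (L : ℝ) / d) * (cc L e n - (L : ℝ) / e) =
      X / (d * e) * (g * N - (L : ℝ) ^ 2) + E1 - (L / e) * E2 - (L / d) * E3 := by
    have e1 : ∑ n ∈ range X, (cc L d n - (L : ℝ) / d) * (cc L e n - (L : ℝ) / e) =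
        ∑ n ∈ range X, cc L d n * cc L e n - (L / e) * ∑ n ∈ range X, cc L d n -
          (L / d) * ∑ n ∈ range X, cc L e n + X * ((L : ℝ) / d * (L / e)) := by
      have : ∀ n ∈ range X, (cc L d n - (L : ℝ) / d) * (cc L e n - (L : ℝ) / e) =
          cc L d n * cc L e n - (L / e) * cc L d n - (L / d) * cc L e n + (L : ℝ) / d * (L / e) := by
        intro n _; ring
      rw [Finset.sum_congr rfl this, Finset.sum_add_distrib, Finset.sum_sub_distrib,
        Finset.sum_sub_distrib, ← Finset.mul_sum, ← Finset.mul_sum, Finset.sum_const,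
        Finset.card_range, nsmul_eq_mul]
    rw [e1, hE1, hE2, hE3, hlcm]
    field_simp
    ring
  rw [hexp]
  have a1 : |X / ((d : ℝ) * e) * (g * N - (L : ℝ) ^ 2)| ≤ X * L * ((g : ℝ) / (d * e)) := by
    rw [abs_mul, abs_of_nonneg (by positivity)]
    calc (X : ℝ) / (d * e) * |g * N - (L : ℝ) ^ 2| ≤ X / (d * e) * (g * L) := by gcongr
      _ = X * L * ((g : ℝ) / (d * e)) := by ring
  have a2 : |(L : ℝ) / e * E2| ≤ L * L := by
    rw [abs_mul, abs_of_nonneg (by positivity)]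
    apply mul_le_mul _ b2 (abs_nonneg _) (by positivity)
    exact div_le_self (by positivity) he1
  have a3 : |(L : ℝ) / d * E3| ≤ L * L := by
    rw [abs_mul, abs_of_nonneg (by positivity)]
    apply mul_le_mul _ b3 (abs_nonneg _) (by positivity)
    exact div_le_self (by positivity) hd1
  rw [abs_le] at a1 a2 a3 b1 ⊢
  constructor <;> nlinarith [a1.1, a1.2, a2.1, a2.2, a3.1, a3.2, b1.1, b1.2]

/-- sum of the majorant over a window -/
lemma sum_ww (R L n : ℕ) : ∑ m ∈ Icc 1 L, ww R (n + m) =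
    ∑ d ∈ (Pool.Agent.Helper601.PP 1 R).divisors, rho R d * cc L d n := by
  unfold ww
  have : ∀ m ∈ Icc 1 L, ∑ d ∈ (Pool.Agent.Helper601.PP 1 R).divisors.filter (fun d => d ∣ n + m),
      rho R d = ∑ d ∈ (Pool.Agent.Helper601.PP 1 R).divisors,
        rho R d * (if d ∣ n + m then 1 else 0) := by
    intro m _
    rw [Finset.sum_filter]
    apply Finset.sum_congr rfl
    intro d _
    split_ifs <;> simp
  rw [Finset.sum_congr rfl this, Finset.sum_comm]
  apply Finset.sum_congr rfl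
  intro d _
  rw [← Finset.mul_sum, cc_eq]

/-- the variance -/
theorem variance (R L X : ℕ) :
    ∑ n ∈ range X, (∑ m ∈ Icc 1 L, ww R (n + m) -
      L * ∑ d ∈ (Pool.Agent.Helper601.PP 1 R).divisors, rho R d / d) ^ 2 ≤
    ∑ d ∈ (Pool.Agent.Helper601.PP 1 R).divisors, ∑ e ∈ (Pool.Agent.Helper601.PP 1 R).divisors,
      |rho R d| * |rho R e| * (X * L * ((Nat.gcd d e : ℝ) / (d * e)) + 3 * (L : ℝ) ^ 2) := by
  set D := (Pool.Agent.Helper601.PP 1 R).divisors with hD
  have hpos : ∀ d ∈ D, 0 < d := fun d hd => Nat.pos_of_mem_divisors hd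
  have h1 : ∀ n ∈ range X, (∑ m ∈ Icc 1 L, ww R (n + m) - L * ∑ d ∈ D, rho R d / d) ^ 2 =
      ∑ d ∈ D, ∑ e ∈ D, rho R d * rho R e *
        ((cc L d n - (L : ℝ) / d) * (cc L e n - (L : ℝ) / e)) := by
    intro n _
    rw [sum_ww, Finset.mul_sum, ← Finset.sum_sub_distrib, sq, Finset.sum_mul_sum]
    apply Finset.sum_congr rfl
    intro d _
    apply Finset.sum_congr rfl
    intro e _
    ring
  rw [Finset.sum_congr rfl h1, Finset.sum_comm]
  apply Finset.sum_le_sum
  intro d hd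
  rw [Finset.sum_comm]
  apply Finset.sum_le_sum
  intro e he
  rw [← Finset.mul_sum]
  refine (le_abs_self _).trans ?_
  rw [abs_mul, abs_mul]
  exact mul_le_mul_of_nonneg_left (cov (hpos d hd) (hpos e he)) (by positivity)

end Pool.Agent.TH665.GP
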