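import Pool.Agent.TH665.GP.V2
import Pool.Agent.Helper601.Mertens

set_option autoImplicit false

open Finset

namespace Pool.Agent.TH665.GP

open Pool.Agent.Helper601 (PP PP_squarefree prime_dvd_PP)

/-- the weight of a pair of sets of primes -/
noncomputable def FF (S T : Finset ℕ) : ℝ :=
  (∏ p ∈ S, 3 / (p : ℝ)) * (∏ p ∈ T, 3 / (p : ℝ)) * ∏ p ∈ S ∩ T, (p : ℝ)

lemma FF_nonneg (S T : Finset ℕ) : 0 ≤ FF S T := by
  unfold FF
  positivity

lemma prod_double (P : Finset ℕ) (hP : ∀ p ∈ P, 0 < p) :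
    ∑ S ∈ P.powerset, ∑ T ∈ P.powerset, FF S T = ∏ p ∈ P, (1 + 15 / (p : ℝ)) := by
  classical
  induction P using Finset.induction_on with
  | empty => simp [FF]
  | insert x s hx ih =>
    have ih' := ih (fun p hp => hP p (mem_insert_of_mem hp))
    have hx0 : (0 : ℝ) < x := by exact_mod_cast hP x (mem_insert_self _ _)
    have hterm : ∀ S ∈ s.powerset, ∀ T ∈ s.powerset,
        FF S T + FF S (insert x T) + (FF (insert x S) T + FF (insert x S) (insert x T)) =
          FF S T * (1 + 15 / (x : ℝ)) := by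
      intro S hS T hT
      rw [mem_powerset] at hS hT
      have hxS : x ∉ S := fun h => hx (hS h)
      have hxT : x ∉ T := fun h => hx (hT h)
      have hxST : x ∉ S ∩ T := fun h => hxS (mem_inter.mp h).1
      have e1 : S ∩ insert x T = S ∩ T := by
        rw [Finset.inter_insert_of_notMem hxS]
      have e2 : insert x S ∩ T = S ∩ T := by
        rw [Finset.insert_inter_of_notMem hxT]
      have e3 : insert x S ∩ insert x T = insert x (S ∩ T) := by
        rw [Finset.insert_inter_distrib]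
      unfold FF
      rw [e1, e2, e3, Finset.prod_insert hxS, Finset.prod_insert hxT, Finset.prod_insert hxST]
      field_simp
      ring
    rw [Finset.prod_insert hx, ← ih', Finset.sum_powerset_insert hx]
    have h1 : ∀ S : Finset ℕ, ∑ T ∈ (insert x s).powerset, FF S T =
        ∑ T ∈ s.powerset, (FF S T + FF S (insert x T)) := by
      intro S
      rw [Finset.sum_powerset_insert hx, Finset.sum_add_distrib]
    rw [Finset.sum_congr rfl (fun S _ => h1 S), Finset.sum_congr rfl (fun S _ => h1 (insert x S)),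
      ← Finset.sum_add_distrib, mul_comm, Finset.sum_mul]
    apply Finset.sum_congr rfl
    intro S hS
    rw [← Finset.sum_add_distrib, Finset.sum_mul]
    apply Finset.sum_congr rfl
    intro T hT
    exact hterm S hS T hT

/-- primes up to `R` -/
noncomputable def PR (R : ℕ) : Finset ℕ := (Icc 1 R).filter Nat.Prime

lemma primeFactors_sub {R d : ℕ} (hd : d ∣ PP 1 R) : d.primeFactors ⊆ PR R := by
  intro p hp
  have hpp := Nat.prime_of_mem_primeFactors hp
  have h1 := (prime_dvd_PP hpp).mp ((Nat.dvd_of_mem_primeFactors hp).trans hd)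
  unfold PR
  rw [mem_filter, mem_Icc]
  exact ⟨⟨hpp.one_lt.le, h1.1⟩, hpp⟩

lemma sum_div_le {R : ℕ} (f : Finset ℕ → ℝ) (hf : ∀ S, 0 ≤ f S) :
    ∑ d ∈ (PP 1 R).divisors, f d.primeFactors ≤ ∑ S ∈ (PR R).powerset, f S := by
  classical
  have hinj : ∀ a ∈ (PP 1 R).divisors, ∀ b ∈ (PP 1 R).divisors,
      a.primeFactors = b.primeFactors → a = b := by
    intro a ha b hb hab
    have h1 := (PP_squarefree 1 R).squarefree_of_dvd (Nat.dvd_of_mem_divisors ha)
    have h2 := (PP_squarefree 1 R).squarefree_of_dvd (Nat.dvd_of_mem_divisors hb)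
    rw [← Nat.prod_primeFactors_of_squarefree h1, ← Nat.prod_primeFactors_of_squarefree h2, hab]
  rw [← Finset.sum_image hinj]
  apply Finset.sum_le_sum_of_subset_of_nonneg
  · intro S hS
    obtain ⟨d, hd, rfl⟩ := mem_image.mp hS
    rw [mem_powerset]
    exact primeFactors_sub (Nat.dvd_of_mem_divisors hd)
  · intro S _ _
    exact hf S

lemma FF_eq {d e : ℕ} (hd : Squarefree d) (he : Squarefree e) :
    (3 : ℝ) ^ d.primeFactors.card * (3 : ℝ) ^ e.primeFactors.card *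
      ((Nat.gcd d e : ℝ) / (d * e)) = FF d.primeFactors e.primeFactors := by
  have h1 : ∀ n : ℕ, Squarefree n → ∏ p ∈ n.primeFactors, 3 / (p : ℝ) =
      (3 : ℝ) ^ n.primeFactors.card / n := by
    intro n hn
    rw [Finset.prod_div_distrib, Finset.prod_const]
    congr 1
    have := Nat.prod_primeFactors_of_squarefree hn
    conv_rhs => rw [← this]
    push_cast
    rfl
  have h2 : ∏ p ∈ d.primeFactors ∩ e.primeFactors, (p : ℝ) = Nat.gcd d e := by
    rw [← Nat.primeFactors_gcd hd.ne_zero he.ne_zero]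
    have hg : Squarefree (Nat.gcd d e) := hd.squarefree_of_dvd (Nat.gcd_dvd_left _ _)
    have := Nat.prod_primeFactors_of_squarefree hg
    conv_rhs => rw [← this]
    push_cast
    rfl
  unfold FF
  rw [h1 d hd, h1 e he, h2]
  ring

lemma G_bound (R : ℕ) :
    ∑ d ∈ (PP 1 R).divisors, ∑ e ∈ (PP 1 R).divisors,
      (3 : ℝ) ^ d.primeFactors.card * (3 : ℝ) ^ e.primeFactors.card *
      ((Nat.gcd d e : ℝ) / (d * e)) ≤ ∏ p ∈ PR R, (1 + 15 / (p : ℝ)) := by
  have hsq : ∀ d ∈ (PP 1 R).divisors, Squarefree d := fun d hd =>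
    (PP_squarefree 1 R).squarefree_of_dvd (Nat.dvd_of_mem_divisors hd)
  calc _ = ∑ d ∈ (PP 1 R).divisors, ∑ e ∈ (PP 1 R).divisors,
        FF d.primeFactors e.primeFactors := by
        apply Finset.sum_congr rfl
        intro d hd
        apply Finset.sum_congr rfl
        intro e he
        exact FF_eq (hsq d hd) (hsq e he)
    _ ≤ ∑ d ∈ (PP 1 R).divisors, ∑ T ∈ (PR R).powerset, FF d.primeFactors T := by
        apply Finset.sum_le_sum
        intro d _
        exact sum_div_le (fun T => FF d.primeFactors T) (fun T => FF_nonneg _ _)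
    _ ≤ ∑ S ∈ (PR R).powerset, ∑ T ∈ (PR R).powerset, FF S T :=
        sum_div_le (fun S => ∑ T ∈ (PR R).powerset, FF S T)
          (fun S => Finset.sum_nonneg (fun T _ => FF_nonneg _ _))
    _ = _ := prod_double _ (fun p hp => (mem_filter.mp hp).2.pos)

lemma euler15 : ∃ C : ℝ, 1 ≤ C ∧ ∀ R : ℕ, 3 ≤ R →
    ∏ p ∈ PR R, (1 + 15 / (p : ℝ)) ≤ (C * Real.log R) ^ 15 := by
  obtain ⟨C0, hC0⟩ := Pool.Agent.Helper601.Mertens.mertens_inv
  refine ⟨Real.exp |C0|, Real.one_le_exp (abs_nonneg _), ?_⟩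
  intro R hR
  have hR3 : (3 : ℝ) ≤ R := by exact_mod_cast hR
  have hlog : 0 < Real.log R := Real.log_pos (by linarith)
  have h1 := (abs_le.mp (hC0 R hR)).2
  calc ∏ p ∈ PR R, (1 + 15 / (p : ℝ)) ≤ ∏ p ∈ PR R, Real.exp (15 / (p : ℝ)) := by
        apply Finset.prod_le_prod
        · intro p _; positivity
        · intro p _
          have := Real.add_one_le_exp (15 / (p : ℝ))
          linarith
    _ = Real.exp (15 * ∑ p ∈ PR R, (1 : ℝ) / p) := by
        rw [← Real.exp_sum, Finset.mul_sum]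
        congr 1
        apply Finset.sum_congr rfl
        intro p _
        ring
    _ ≤ Real.exp (15 * (|C0| + Real.log (Real.log R))) := by
        apply Real.exp_le_exp.mpr
        have h2 : C0 ≤ |C0| := le_abs_self _
        have h3 : ∑ p ∈ PR R, (1 : ℝ) / p = ∑ p ∈ (Icc 1 R).filter Nat.Prime, (1 : ℝ) / p := rfl
        linarith
    _ = (Real.exp |C0| * Real.log R) ^ 15 := by
        have e1 : (15 : ℝ) * (|C0| + Real.log (Real.log R)) =
            (15 : ℕ) * (|C0| + Real.log (Real.log R)) := by norm_num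
        rw [e1, Real.exp_nat_mul, Real.exp_add, Real.exp_log hlog]

lemma H_bound (R : ℕ) :
    ∑ d ∈ (PP 1 R).divisors, (if d ≤ R ^ 2 then (3 : ℝ) ^ d.primeFactors.card else 0) ≤
      (R : ℝ) ^ 6 := by
  classical
  rw [← Finset.sum_filter]
  have hsub : (PP 1 R).divisors.filter (fun d => d ≤ R ^ 2) ⊆ Icc 1 (R ^ 2) := by
    intro d hd
    rw [mem_filter] at hd
    rw [mem_Icc]
    exact ⟨Nat.pos_of_mem_divisors hd.1, hd.2⟩
  have h3 : ∀ d ∈ Icc 1 (R ^ 2), (3 : ℝ) ^ d.primeFactors.card ≤ ((R : ℝ) ^ 2) ^ 2 := by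
    intro d hd
    rw [mem_Icc] at hd
    have h4 : (3 : ℝ) ^ d.primeFactors.card ≤ (d : ℝ) ^ 2 := by
      have h5 : ∏ p ∈ d.primeFactors, (3 : ℝ) ≤ ∏ p ∈ d.primeFactors, (p : ℝ) ^ 2 := by
        apply Finset.prod_le_prod
        · intro p _; norm_num
        · intro p hp
          have : (2 : ℝ) ≤ p := by exact_mod_cast (Nat.prime_of_mem_primeFactors hp).two_le
          nlinarith
      rw [Finset.prod_const, Finset.prod_pow] at h5
      refine h5.trans ?_
      have h6 : ∏ p ∈ d.primeFactors, p ≤ d :=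
        Nat.le_of_dvd (by omega) (Nat.prod_primeFactors_dvd d)
      have h7 : ((∏ p ∈ d.primeFactors, p : ℕ) : ℝ) ≤ d := Nat.cast_le.mpr h6
      rw [Nat.cast_prod] at h7
      gcongr
    refine h4.trans ?_
    have : (d : ℝ) ≤ (R : ℝ) ^ 2 := by exact_mod_cast hd.2
    gcongr
  calc ∑ d ∈ (PP 1 R).divisors.filter (fun d => d ≤ R ^ 2), (3 : ℝ) ^ d.primeFactors.card
      ≤ ∑ d ∈ Icc 1 (R ^ 2), (3 : ℝ) ^ d.primeFactors.card :=
        Finset.sum_le_sum_of_subset_of_nonneg hsub (fun _ _ _ => by positivity)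
    _ ≤ ∑ d ∈ Icc 1 (R ^ 2), ((R : ℝ) ^ 2) ^ 2 := Finset.sum_le_sum h3
    _ = (R : ℝ) ^ 6 := by
        rw [Finset.sum_const, Nat.card_Icc, nsmul_eq_mul]
        simp only [Nat.add_sub_cancel]
        push_cast
        ring

/-- the variance bound -/
theorem variance_le : ∃ C : ℝ, 1 ≤ C ∧ ∀ R L X : ℕ, 3 ≤ R →
    ∑ n ∈ range X, (∑ m ∈ Icc 1 L, ww R (n + m) -
      L * ∑ d ∈ (PP 1 R).divisors, rho R d / d) ^ 2 ≤
      X * L * (C * Real.log R) ^ 15 + 3 * (L : ℝ) ^ 2 * (R : ℝ) ^ 12 := by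
  obtain ⟨C, hC, hE⟩ := euler15
  refine ⟨C, hC, ?_⟩
  intro R L X hR
  have hR1 : 1 ≤ R := by omega
  refine (variance R L X).trans ?_
  set D := (PP 1 R).divisors with hD
  set B : ℕ → ℝ := fun d => if d ≤ R ^ 2 then (3 : ℝ) ^ d.primeFactors.card else 0 with hB
  have hB0 : ∀ d, 0 ≤ B d := by
    intro d
    simp only [hB]
    split_ifs <;> positivity
  have hB3 : ∀ d, B d ≤ (3 : ℝ) ^ d.primeFactors.card := by
    intro d
    simp only [hB]
    split_ifs
    · exact le_rfl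
    · positivity
  have hrho : ∀ d ∈ D, |rho R d| ≤ B d := fun d hd => rho_abs hR1 (Nat.dvd_of_mem_divisors hd)
  have h1 : ∑ d ∈ D, ∑ e ∈ D,
      |rho R d| * |rho R e| * (X * L * ((Nat.gcd d e : ℝ) / (d * e)) + 3 * (L : ℝ) ^ 2) ≤
      ∑ d ∈ D, ∑ e ∈ D, (X * L * ((3 : ℝ) ^ d.primeFactors.card * (3 : ℝ) ^ e.primeFactors.card *
        ((Nat.gcd d e : ℝ) / (d * e))) + 3 * (L : ℝ) ^ 2 * (B d * B e)) := by
    apply Finset.sum_le_sum
    intro d hd
    apply Finset.sum_le_sum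
    intro e he
    have b1 := hrho d hd
    have b2 := hrho e he
    have b3 : |rho R d| * |rho R e| ≤ B d * B e :=
      mul_le_mul b1 b2 (abs_nonneg _) (hB0 d)
    have b4 : B d * B e ≤ (3 : ℝ) ^ d.primeFactors.card * (3 : ℝ) ^ e.primeFactors.card :=
      mul_le_mul (hB3 d) (hB3 e) (hB0 e) (by positivity)
    have b5 : 0 ≤ (X : ℝ) * L * ((Nat.gcd d e : ℝ) / (d * e)) := by positivity
    have b6 : 0 ≤ 3 * (L : ℝ) ^ 2 := by positivity
    calc |rho R d| * |rho R e| * (X * L * ((Nat.gcd d e : ℝ) / (d * e)) + 3 * (L : ℝ) ^ 2)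
        ≤ (B d * B e) * (X * L * ((Nat.gcd d e : ℝ) / (d * e)) + 3 * (L : ℝ) ^ 2) := by
          gcongr
      _ = (B d * B e) * (X * L * ((Nat.gcd d e : ℝ) / (d * e))) +
            3 * (L : ℝ) ^ 2 * (B d * B e) := by ring
      _ ≤ ((3 : ℝ) ^ d.primeFactors.card * (3 : ℝ) ^ e.primeFactors.card) *
            (X * L * ((Nat.gcd d e : ℝ) / (d * e))) + 3 * (L : ℝ) ^ 2 * (B d * B e) := by
          gcongr
      _ = _ := by ring
  refine h1.trans ?_
  have h2 : ∑ d ∈ D, ∑ e ∈ D, (X * L * ((3 : ℝ) ^ d.primeFactors.card *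
      (3 : ℝ) ^ e.primeFactors.card * ((Nat.gcd d e : ℝ) / (d * e))) +
        3 * (L : ℝ) ^ 2 * (B d * B e)) =
      X * L * (∑ d ∈ D, ∑ e ∈ D, (3 : ℝ) ^ d.primeFactors.card *
      (3 : ℝ) ^ e.primeFactors.card * ((Nat.gcd d e : ℝ) / (d * e))) +
        3 * (L : ℝ) ^ 2 * ((∑ d ∈ D, B d) * ∑ e ∈ D, B e) := by
    rw [Finset.sum_mul_sum, Finset.mul_sum, Finset.mul_sum, ← Finset.sum_add_distrib]
    apply Finset.sum_congr rfl
    intro d _
    rw [Finset.mul_sum, Finset.mul_sum, ← Finset.sum_add_distrib]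
  rw [h2]
  have h3 := (G_bound R).trans (hE R hR)
  have h4 := H_bound R
  have h5 : 0 ≤ ∑ d ∈ D, B d := Finset.sum_nonneg (fun d _ => hB0 d)
  have h6 : (∑ d ∈ D, B d) * ∑ e ∈ D, B e ≤ (R : ℝ) ^ 12 := by
    calc (∑ d ∈ D, B d) * ∑ e ∈ D, B e ≤ (R : ℝ) ^ 6 * (R : ℝ) ^ 6 :=
          mul_le_mul h4 h4 h5 (by positivity)
      _ = _ := by ring
  gcongr

end Pool.Agent.TH665.GP
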