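import Pool.Agent.TH665.GP.V3

set_option autoImplicit false

/-!
For all but a proportion `(log x)^18 / L` of the integers `n < x` the window `(n, n + L]` contains
at most `193 L / log x` primes.
-/

open Finset Filter Topology

namespace Pool.Agent.TH665.GP

open Pool.Agent.Helper601 (PP)

/-- number of primes in `(n, n + L]` -/
def pc (L n : ℕ) : ℕ := ((Icc 1 L).filter (fun m => (n + m).Prime)).card

lemma pc_le_ww {R L n : ℕ} (hR : 1 ≤ R) (hn : R ≤ n) :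
    (pc L n : ℝ) ≤ ∑ m ∈ Icc 1 L, ww R (n + m) := by
  unfold pc
  rw [Finset.card_filter]
  push_cast
  apply Finset.sum_le_sum
  intro m hm
  rw [mem_Icc] at hm
  split_ifs with h
  · exact ww_prime hR h (by omega)
  · exact ww_nonneg hR (by omega)

lemma asym48 (C : ℝ) : ∀ᶠ x : ℝ in atTop, 1 < x ∧ 4 ≤ x ^ (1 / 48 : ℝ) ∧
    2 * C ^ 15 ≤ Real.log x ∧ 1 ≤ Real.log x ∧
    3 * x ^ (1 / 4 : ℝ) * Real.log x ^ 2 + x ^ (1 / 48 : ℝ) ≤ x ^ (3 / 4 : ℝ) / 2 := by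
  have h1 : ∀ᶠ x : ℝ in atTop, 16 ≤ x ^ (1 / 48 : ℝ) :=
    (tendsto_rpow_atTop (by norm_num : (0 : ℝ) < 1 / 48)).eventually_ge_atTop 16
  have h2 := (isLittleO_log_rpow_atTop (by norm_num : (0 : ℝ) < 1 / 8)).bound
    (by norm_num : (0 : ℝ) < 1 / 4)
  have h3 := Real.tendsto_log_atTop.eventually_ge_atTop (2 * C ^ 15)
  have h4 := Real.tendsto_log_atTop.eventually_ge_atTop 1
  filter_upwards [h1, h2, h3, h4, eventually_gt_atTop 1] with x h1 h2 h3 h4 h5
  have hx0 : 0 < x := by linarith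
  refine ⟨h5, by linarith, h3, h4, ?_⟩
  have hlog : 0 < Real.log x := Real.log_pos h5
  rw [Real.norm_of_nonneg hlog.le, Real.norm_of_nonneg (by positivity)] at h2
  have e1 : x ^ (1 / 8 : ℝ) * x ^ (1 / 8 : ℝ) = x ^ (1 / 4 : ℝ) := by
    rw [← Real.rpow_add hx0]; norm_num
  have e2 : x ^ (1 / 4 : ℝ) * x ^ (1 / 4 : ℝ) * x ^ (1 / 4 : ℝ) = x ^ (3 / 4 : ℝ) := by
    rw [← Real.rpow_add hx0, ← Real.rpow_add hx0]; norm_num
  have e3 : x ^ (1 / 48 : ℝ) ≤ x ^ (1 / 4 : ℝ) :=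
    Real.rpow_le_rpow_of_exponent_le h5.le (by norm_num)
  set u := x ^ (1 / 8 : ℝ) with hu
  set v := x ^ (1 / 4 : ℝ) with hv
  have hv16 : 16 ≤ v := h1.trans e3
  have hv0 : 0 < v := by linarith
  have h6 : Real.log x ^ 2 ≤ v / 16 := by
    have : Real.log x ^ 2 ≤ (1 / 4 * u) ^ 2 := by gcongr
    calc Real.log x ^ 2 ≤ (1 / 4 * u) ^ 2 := this
      _ = v / 16 := by rw [← e1]; ring
  rw [← e2]
  have h7 : 3 * v * Real.log x ^ 2 ≤ 3 * v * (v / 16) := by gcongr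
  nlinarith

theorem bad_le : ∃ x0 : ℕ, ∀ x L : ℕ, x0 ≤ x → 1 ≤ L → (L : ℝ) ≤ (x : ℝ) ^ (1 / 4 : ℝ) →
    (((range x).filter (fun n => 193 * (L : ℝ) / Real.log x < pc L n)).card : ℝ) ≤
      x * Real.log x ^ 18 / L := by
  classical
  obtain ⟨C, hC, hV⟩ := variance_le
  obtain ⟨x0, hx0⟩ := Filter.eventually_atTop.mp (asym48 C)
  refine ⟨⌈x0⌉₊, ?_⟩
  intro x L hx hL hLx
  have hxx : x0 ≤ (x : ℝ) := Nat.ceil_le.mp hx
  obtain ⟨a1, a2, a3, a4, a5⟩ := hx0 x hxx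
  have hx0' : (0 : ℝ) < x := by linarith
  have hlog : 0 < Real.log x := by linarith
  have hL0 : (0 : ℝ) < L := by exact_mod_cast hL
  set R : ℕ := ⌊(x : ℝ) ^ (1 / 48 : ℝ)⌋₊ with hR
  have hRle : (R : ℝ) ≤ (x : ℝ) ^ (1 / 48 : ℝ) := Nat.floor_le (by positivity)
  have hRlt : (x : ℝ) ^ (1 / 48 : ℝ) < R + 1 := Nat.lt_floor_add_one _
  have hR3 : 3 ≤ R := by
    have : (3 : ℝ) < R + 1 - 0 := by linarith
    have : (3 : ℝ) ≤ R := by
      have h : (4 : ℝ) ≤ (x : ℝ) ^ (1 / 48 : ℝ) := a2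
      have : (4 : ℕ) ≤ R := Nat.le_floor (by exact_mod_cast h)
      exact_mod_cast (by omega : 3 ≤ R)
    exact_mod_cast this
  have hR1 : 1 ≤ R := by omega
  have hR0 : (0 : ℝ) < R := by exact_mod_cast (by omega : 0 < R)
  have hlogR1 : Real.log x / 48 ≤ Real.log ((R : ℝ) + 1) := by
    have : Real.log ((x : ℝ) ^ (1 / 48 : ℝ)) ≤ Real.log ((R : ℝ) + 1) :=
      Real.log_le_log (by positivity) hRlt.le
    rw [Real.log_rpow hx0'] at this
    linarith
  have hlogR : Real.log R ≤ Real.log x := by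
    apply Real.log_le_log hR0
    refine hRle.trans ?_
    calc (x : ℝ) ^ (1 / 48 : ℝ) ≤ (x : ℝ) ^ (1 : ℝ) :=
          Real.rpow_le_rpow_of_exponent_le a1.le (by norm_num)
      _ = x := Real.rpow_one _
  have hlogR0 : 0 ≤ Real.log R := Real.log_nonneg (by exact_mod_cast hR1)
  set M : ℝ := L * ∑ d ∈ (PP 1 R).divisors, rho R d / d with hM
  obtain ⟨m1, m2⟩ := rho_mean hR1
  have hMle : M ≤ 192 * L / Real.log x := by
    have h1 : (4 : ℝ) / Real.log ((R : ℝ) + 1) ≤ 192 / Real.log x := by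
      rw [div_le_div_iff₀ (by linarith [div_pos hlog (by norm_num : (0 : ℝ) < 48)]) hlog]
      linarith
    calc M ≤ L * (192 / Real.log x) := by
          rw [hM]
          apply mul_le_mul_of_nonneg_left (m2.trans h1) hL0.le
      _ = _ := by ring
  set S : ℕ → ℝ := fun n => ∑ m ∈ Icc 1 L, ww R (n + m) with hS
  set t : ℝ := L / Real.log x with ht
  have ht0 : 0 < t := by positivity
  set Bad := (range x).filter (fun n => 193 * (L : ℝ) / Real.log x < pc L n) with hBad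
  set B2 := (range x).filter (fun n => t ^ 2 ≤ (S n - M) ^ 2) with hB2
  have hsub : Bad ⊆ range R ∪ B2 := by
    intro n hn
    rw [hBad, mem_filter] at hn
    rw [mem_union, mem_range]
    by_cases hnR : n < R
    · exact Or.inl hnR
    · right
      rw [hB2, mem_filter]
      refine ⟨hn.1, ?_⟩
      have h1 := pc_le_ww (L := L) hR1 (by omega : R ≤ n)
      have h2 : t ≤ S n - M := by
        have e : 193 * (L : ℝ) / Real.log x = 192 * L / Real.log x + t := by rw [ht]; ring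
        have h3 := hn.2
        rw [e] at h3
        have h4 : (pc L n : ℝ) ≤ S n := h1
        linarith
      exact pow_le_pow_left₀ ht0.le h2 2
  have hcard : (Bad.card : ℝ) ≤ R + B2.card := by
    have h1 := (Finset.card_le_card hsub).trans (Finset.card_union_le _ _)
    rw [Finset.card_range] at h1
    exact_mod_cast h1
  have hmark : (B2.card : ℝ) * t ^ 2 ≤ x * L * (C * Real.log R) ^ 15 + 3 * (L : ℝ) ^ 2 * (R : ℝ) ^ 12 := by
    calc (B2.card : ℝ) * t ^ 2 = ∑ n ∈ B2, t ^ 2 := by rw [Finset.sum_const, nsmul_eq_mul]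
      _ ≤ ∑ n ∈ B2, (S n - M) ^ 2 := by
          apply Finset.sum_le_sum
          intro n hn
          rw [hB2, mem_filter] at hn
          exact hn.2
      _ ≤ ∑ n ∈ range x, (S n - M) ^ 2 :=
          Finset.sum_le_sum_of_subset_of_nonneg (Finset.filter_subset _ _)
            (fun _ _ _ => sq_nonneg _)
      _ ≤ _ := hV R L x hR3
  have hR12 : (R : ℝ) ^ 12 ≤ (x : ℝ) ^ (1 / 4 : ℝ) := by
    calc (R : ℝ) ^ 12 ≤ ((x : ℝ) ^ (1 / 48 : ℝ)) ^ 12 := by gcongr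
      _ = (x : ℝ) ^ (1 / 4 : ℝ) := by
          rw [← Real.rpow_natCast, ← Real.rpow_mul hx0'.le]; norm_num
  have hB2le : (B2.card : ℝ) ≤ x * C ^ 15 * Real.log x ^ 17 / L +
      3 * (x : ℝ) ^ (1 / 4 : ℝ) * Real.log x ^ 2 := by
    have h1 : (B2.card : ℝ) * t ^ 2 ≤ x * L * (C * Real.log x) ^ 15 +
        3 * (L : ℝ) ^ 2 * (x : ℝ) ^ (1 / 4 : ℝ) := by
      refine hmark.trans ?_
      gcongr
    have h2 : (B2.card : ℝ) ≤ (x * L * (C * Real.log x) ^ 15 +
        3 * (L : ℝ) ^ 2 * (x : ℝ) ^ (1 / 4 : ℝ)) / t ^ 2 := by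
      rw [le_div_iff₀ (by positivity)]
      exact h1
    refine h2.trans (le_of_eq ?_)
    rw [ht]
    field_simp
  have hfin : x * C ^ 15 * Real.log x ^ 17 / L ≤ x * Real.log x ^ 18 / L / 2 := by
    have : (x : ℝ) * C ^ 15 * Real.log x ^ 17 ≤ x * (Real.log x / 2) * Real.log x ^ 17 := by
      gcongr
      linarith
    calc x * C ^ 15 * Real.log x ^ 17 / L ≤ x * (Real.log x / 2) * Real.log x ^ 17 / L := by
          gcongr
      _ = _ := by ring
  have hrest : 3 * (x : ℝ) ^ (1 / 4 : ℝ) * Real.log x ^ 2 + R ≤ x * Real.log x ^ 18 / L / 2 := by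
    have h1 : (x : ℝ) ^ (3 / 4 : ℝ) ≤ x * Real.log x ^ 18 / L := by
      rw [le_div_iff₀ hL0]
      calc (x : ℝ) ^ (3 / 4 : ℝ) * L ≤ (x : ℝ) ^ (3 / 4 : ℝ) * (x : ℝ) ^ (1 / 4 : ℝ) := by gcongr
        _ = x := by rw [← Real.rpow_add hx0']; norm_num
        _ = x * 1 := by ring
        _ ≤ x * Real.log x ^ 18 := by
            gcongr
            exact one_le_pow₀ a4
    linarith
  linarith

end Pool.Agent.TH665.GP
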